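import Pool.Agent.T9h21.UB.Tur

/-!
# `NP ∩ coNP` is closed under polynomial-time Turing reductions
-/

set_option autoImplicit false

namespace Pool.Agent.T9h21.UB

open Turing Computability N68a2faeb N793a5b8e
open Pool.Agent.H583R2
open Pool.Agent.T9h49.SC hiding found act stp st upd badN RK RN KK NN Good

/-- membership in `NP` with a polynomially bounded certificate -/
theorem mem_np_of {L : DecisionProblem} {R : List Bool × List Bool → Bool} (hR : PF R)
    {b : List Bool → ℕ} (hb : PB b) (h1 : ∀ x w, R (x, w) = true → L x = true)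
    (h2 : ∀ x, L x = true → ∃ w : List Bool, w.length ≤ b x ∧ R (x, w) = true) : L ∈ NP := by
  obtain ⟨k, hk⟩ := hb
  refine ⟨(4 * Polynomial.X + 3) ^ k, R, isPolyTime_of_pf2 hR, fun x => ⟨fun h => ?_, ?_⟩⟩
  · obtain ⟨w, hw, hw'⟩ := h2 x h
    refine ⟨w, hw.trans ((hk x).trans ?_), hw'⟩
    have e : ((4 * Polynomial.X + 3 : Polynomial ℕ) ^ k).eval x.length =
        (4 * x.length + 3) ^ k := by simp
    rw [e]
    refine Nat.pow_le_pow_left ?_ _
    have := sz_str x
    omega
  · rintro ⟨w, _, hw⟩
    exact h1 x w hw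

/-- `NP` is closed under many-one reductions -/
theorem np_of_red {L M : DecisionProblem} (hM : M ∈ NP) (h : ManyOneReducible L M) : L ∈ NP := by
  obtain ⟨c, k, hc⟩ := np_nf hM
  obtain ⟨f, hf, hfL⟩ := h
  have hf' := pf_of_isPolyTime hf
  have ht : PF (fun x => tm k (f x)) :=
    pf_powK (PF.add (PF.length hf') (PF.const 2)) k
  refine mem_np_of (R := fun q => accT c (tm k (f q.1)) (f q.1) q.2)
    (pf_accT (PF.const c) (ht.comp PF.fst) (hf'.comp PF.fst) PF.snd)
    (b := fun x => tm k (f x)) (ht.size.mono fun x => by rw [sz_nat]; omega) ?_ ?_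
  · intro x w hw
    rw [hfL, hc k le_rfl]
    exact ⟨w, hw⟩
  · intro x hx
    rw [hfL, hc k le_rfl] at hx
    obtain ⟨w, hw⟩ := hx
    refine ⟨w, ?_, hw⟩
    unfold acc accT at hw
    rw [Bool.and_eq_true, decide_eq_true_eq] at hw
    exact hw.1

/-! ### certificates -/

section
variable (c1 c2 : Code) (T : ℕ) (q : List Bool → List Bool)

/-- the answer certified by `w` -/
def cert (z w : List Bool) : Option Bool :=
  if accT c1 T z w then some true else if accT c2 T z w then some false else none

/-- one more certified answer -/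
def askW (s : Option (List Bool)) (w : List Bool) : Option (List Bool) :=
  s.bind (fun a => (cert c1 c2 T (q a) w).bind (fun b => some (a ++ [b])))

variable {c1 c2 T q} {B : DecisionProblem}

theorem askW_none (ws : List (List Bool)) : ws.foldl (askW c1 c2 T q) none = none := by
  induction ws with
  | nil => rfl
  | cons w ws ih => exact ih

theorem askW_sound (hc : ∀ z w b, cert c1 c2 T z w = some b → B z = b) (ws : List (List Bool)) :
    ∀ (j : ℕ) (a : List Bool), ws.foldl (askW c1 c2 T q) (some (answers q B j)) = some a →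
      a = answers q B (j + ws.length) := by
  induction ws with
  | nil => intro j a h; exact (Option.some.inj h).symm
  | cons w ws ih =>
    intro j a h
    rw [List.foldl_cons] at h
    rcases h1 : cert c1 c2 T (q (answers q B j)) w with _ | b
    · have e : askW c1 c2 T q (some (answers q B j)) w = none := by
        simp [askW, h1]
      rw [e, askW_none] at h
      simp at h
    · have e : askW c1 c2 T q (some (answers q B j)) w = some (answers q B (j + 1)) := by
        simp only [askW, Option.bind_some, h1, answers, hc _ _ _ h1]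
      rw [e] at h
      rw [ih _ _ h, List.length_cons]
      congr 1
      omega

theorem askW_total (n W : ℕ)
    (hc : ∀ j, j < n → ∃ w : List Bool, w.length ≤ W ∧
      cert c1 c2 T (q (answers q B j)) w = some (B (q (answers q B j)))) :
    ∃ ws : List (List Bool), ws.length = n ∧ (∀ w ∈ ws, w.length ≤ W) ∧
      ws.foldl (askW c1 c2 T q) (some []) = some (answers q B n) := by
  induction n with
  | zero => exact ⟨[], rfl, by simp, rfl⟩
  | succ n ih =>
    obtain ⟨ws, h1, h2, h3⟩ := ih fun j hj => hc j (by omega)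
    obtain ⟨w, hw, hw'⟩ := hc n (by omega)
    refine ⟨ws ++ [w], by simp [h1], ?_, ?_⟩
    · intro v hv
      rcases List.mem_append.1 hv with h | h
      · exact h2 v h
      · rw [List.mem_singleton] at h; rw [h]; exact hw
    · rw [List.foldl_append, h3]
      simp only [List.foldl_cons, List.foldl_nil, askW, Option.bind_some, hw', answers]

end

section
variable {α : Type} [TEnc α]

theorem pf_askW {c1 c2 : Code} {T : α → ℕ} {q : α → List Bool → List Bool}
    {ws : α → List (List Bool)} (hT : PF T) (hq : PF (fun p : α × List Bool => q p.1 p.2))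
    (hws : PF ws) : PF (fun a => (ws a).foldl (askW c1 c2 (T a) (q a)) (some [])) := by
  refine PF.foldlAdd (l := ws) (s := fun _ => some [])
    (f := fun a s w => askW c1 c2 (T a) (q a) s w) hws (PF.const _) ?_ (inc := fun _ => 4)
    (bnd := fun _ => 1) (PB.const 4) (PB.const 1) ?_
  · have hz : PF (fun p : (α × Option (List Bool) × List Bool) × List Bool => q p.1.1 p.2) :=
      hq.comp (PF.pair (PF.fst' PF.fst) PF.snd)
    have h1 : PF (fun p : (α × Option (List Bool) × List Bool) × List Bool =>
        cert c1 c2 (T p.1.1) (q p.1.1 p.2) p.1.2.2) := by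
      unfold cert
      exact PF.ite (pf_accT (PF.const c1) (hT.comp (PF.fst' PF.fst)) hz (PF.snd' (PF.snd' PF.fst)))
        (PF.const _) (PF.ite (pf_accT (PF.const c2) (hT.comp (PF.fst' PF.fst)) hz
          (PF.snd' (PF.snd' PF.fst))) (PF.const _) (PF.const _))
    have h2 : PF (fun p : (α × Option (List Bool) × List Bool) × List Bool =>
        (cert c1 c2 (T p.1.1) (q p.1.1 p.2) p.1.2.2).bind (fun b => some (p.2 ++ [b]))) :=
      pf_bind h1 (f := fun p b => some (p.2 ++ [b]))
        (PF.mkSome (PF.append (PF.snd' PF.fst) (PF.cons PF.snd (PF.const []))))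
    exact pf_bind (o := fun p : α × Option (List Bool) × List Bool => p.2.1) (PF.fst' PF.snd)
      (f := fun p a => (cert c1 c2 (T p.1) (q p.1 a) p.2.2).bind (fun b => some (a ++ [b]))) h2
  · intro a w _ s
    rcases s with _ | a'
    · exact le_max_right _ _
    · rcases h : cert c1 c2 (T a) (q a a') w with _ | b
      · simp only [askW, Option.bind_some, h, Option.bind_none]
        exact le_max_right _ _
      · simp only [askW, Option.bind_some, h]
        rw [sz_some, sz_some]
        have := sz_snoc a' b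
        exact le_trans (by omega) (le_max_left _ _)

end

/-! ### closure -/

theorem acc_of_accT {c : Code} {k₀ : ℕ} {L : DecisionProblem}
    (h : ∀ k, k₀ ≤ k → ∀ x, (L x = true ↔ Acc c k x)) {T : ℕ} {z w : List Bool}
    (hw : accT c T z w = true) : L z = true := by
  rw [h (max k₀ T) (le_max_left _ _)]
  have hT : T ≤ tm (max k₀ T) z :=
    (nat_le_pow T z.length).trans (Nat.pow_le_pow_right (by omega) (le_max_right _ _))
  refine ⟨w, ?_⟩
  unfold acc
  unfold accT at hw ⊢
  rw [Bool.and_eq_true, decide_eq_true_eq, yes_iff] at hw ⊢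
  exact ⟨hw.1.trans hT, U_stable hw.2 hT⟩

theorem accT_mono {c : Code} {T T' : ℕ} {z w : List Bool} (hw : accT c T z w = true)
    (h : T ≤ T') : accT c T' z w = true := by
  unfold accT at hw ⊢
  rw [Bool.and_eq_true, decide_eq_true_eq, yes_iff] at hw ⊢
  exact ⟨hw.1.trans h, U_stable hw.2 h⟩

theorem accT_len {c : Code} {T : ℕ} {z w : List Bool} (hw : accT c T z w = true) :
    w.length ≤ T := by
  unfold accT at hw
  rw [Bool.and_eq_true, decide_eq_true_eq] at hw
  exact hw.1

theorem pf_tm (k : ℕ) : PF (fun x : List Bool => tm k x) :=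
  pf_powK (PF.add (PF.length PF.id) (PF.const 2)) k

theorem pf_tq (r : ℕ) {α : Type} [TEnc α] {x : α → List Bool} (hx : PF x) :
    PF (fun a => tq r (x a)) := (pf_tm (tx r).2.2.1).comp hx

theorem pf_tc (r : ℕ) {α : Type} [TEnc α] {x : α → List Bool} (hx : PF x) :
    PF (fun a => tc r (x a)) := (pf_tm (tx r).2.2.2).comp hx

/-- the clock for the certificates -/
def tw (k r : ℕ) (x : List Bool) : ℕ := (tc r x + 2) ^ k

theorem pf_tw (k r : ℕ) {α : Type} [TEnc α] {x : α → List Bool} (hx : PF x) :
    PF (fun a => tw k r (x a)) := pf_powK (PF.add (pf_tc r hx) (PF.const 2)) k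

/-- the query of the reduction `r` -/
def qr (r : ℕ) (x a : List Bool) : List Bool := qry (tx r).1 (tc r x) x a

theorem pf_qr (r : ℕ) {α : Type} [TEnc α] {x a : α → List Bool} (hx : PF x) (ha : PF a) :
    PF (fun p => qr r (x p) (a p)) := pf_qry (PF.const (tx r).1) (pf_tc r hx) hx ha

/-- the decision of the reduction `r` -/
def dr (r : ℕ) (x a : List Bool) : Bool := dcs (tx r).2.1 (tc r x) x a

theorem pf_dr (r : ℕ) {α : Type} [TEnc α] {x a : α → List Bool} (hx : PF x) (ha : PF a) :
    PF (fun p => dr r (x p) (a p)) := pf_dcs (PF.const (tx r).2.1) (pf_tc r hx) hx ha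

/-- the list of certificates coded by a string -/
def lst (w : List Bool) : List (List Bool) := decL (decL decB) (parse w)

theorem pf_lst {α : Type} [TEnc α] {w : α → List Bool} (hw : PF w) :
    PF (fun a => lst (w a)) := by
  have h : PF (fun t : Tr => decL (decL decB) t) :=
    PF.decL (d := decL decB) (PF.decL (d := decB) (PF.decB PF.id) PF.id) PF.id
  exact h.comp (PF.parse hw)

theorem lst_ser (ws : List (List Bool)) : lst (ser (enc ws)) = ws := by
  unfold lst
  have e : parse (ser (enc ws)) = enc ws := by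
    have := parse_ser (enc ws) []
    rwa [List.append_nil] at this
  rw [e]
  exact decL_enc (decL_enc decB_enc) ws

/-- the verified run -/
def runW (c1 c2 : Code) (k r : ℕ) (x : List Bool) (ws : List (List Bool)) : Option (List Bool) :=
  ws.foldl (askW c1 c2 (tw k r x) (qr r x)) (some [])

theorem pf_runW (c1 c2 : Code) (k r : ℕ) {α : Type} [TEnc α] {x : α → List Bool}
    {ws : α → List (List Bool)} (hx : PF x) (hws : PF ws) :
    PF (fun a => runW c1 c2 k r (x a) (ws a)) :=
  pf_askW (c1 := c1) (c2 := c2) (T := fun a => tw k r (x a)) (q := fun a => qr r (x a))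
    (pf_tw k r hx) (pf_qr r (hx.comp PF.fst) PF.snd) hws

/-- the verifier -/
def relW (c1 c2 : Code) (k r : ℕ) (v : Bool) (p : List Bool × List Bool) : Bool :=
  decide ((lst p.2).length = tq r p.1) &&
    ((runW c1 c2 k r p.1 (lst p.2)).bind (fun a => some (dr r p.1 a == v))).getD false

theorem pf_relW1 (r : ℕ) :
    PF (fun p : List Bool × List Bool => decide ((lst p.2).length = tq r p.1)) :=
  PF.natEq (PF.length (pf_lst PF.snd)) (pf_tq r PF.fst)

theorem pf_relW2 (r : ℕ) (v : Bool) :
    PF (fun p : (List Bool × List Bool) × List Bool => some (dr r p.1.1 p.2 == v)) :=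
  PF.mkSome (PF.beqBool (pf_dr r (PF.fst' PF.fst) PF.snd) (PF.const v))

theorem pf_relW3 (c1 c2 : Code) (k r : ℕ) : PF (fun p : List Bool × List Bool =>
    runW c1 c2 k r p.1 (lst p.2)) := pf_runW c1 c2 k r PF.fst (pf_lst PF.snd)

theorem pf_relW4 (c1 c2 : Code) (k r : ℕ) (v : Bool) : PF (fun p : List Bool × List Bool =>
    (runW c1 c2 k r p.1 (lst p.2)).bind (fun a => some (dr r p.1 a == v))) :=
  pf_bind (o := fun p : List Bool × List Bool => runW c1 c2 k r p.1 (lst p.2))
    (pf_relW3 c1 c2 k r) (f := fun p a => some (dr r p.1 a == v)) (pf_relW2 r v)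

theorem pf_relW (c1 c2 : Code) (k r : ℕ) (v : Bool) : PF (relW c1 c2 k r v) := by
  refine (PF.and (pf_relW1 r) (PF.getD (pf_relW4 c1 c2 k r v) (PF.const false))).congr
    fun p => ?_
  unfold relW
  rfl

theorem ΩT_eq (r : ℕ) (B : DecisionProblem) (x : List Bool) :
    ΩT r B x = dr r x (answers (qr r x) B (tq r x)) := rfl

/-- the closure of `NP` for one value of the answer -/
theorem ΩT_aux (r : ℕ) {B : DecisionProblem} (hB : B ∈ NP ∩ coNP) (v : Bool)
    {L : DecisionProblem} (hL : ∀ x, L x = true ↔ ΩT r B x = v) : L ∈ NP := by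
  obtain ⟨c1, k1, h1⟩ := np_nf hB.1
  obtain ⟨c2, k2, h2⟩ := np_nf (L := Bᶜ) hB.2
  obtain ⟨k, hk⟩ : ∃ k, k = max k1 k2 := ⟨_, rfl⟩
  have hcert : ∀ x z w b, cert c1 c2 (tw k r x) z w = some b → B z = b := by
    intro x z w b h
    unfold cert at h
    split_ifs at h with ha hb
    · rw [← Option.some.inj h]; exact acc_of_accT h1 ha
    · rw [← Option.some.inj h]
      have := acc_of_accT h2 hb
      simpa using this
  have hex : ∀ x a, ∃ w : List Bool, w.length ≤ tw k r x ∧
      cert c1 c2 (tw k r x) (qr r x a) w = some (B (qr r x a)) := by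
    intro x a
    have hlen : (qr r x a).length ≤ tc r x := by
      unfold qr qry
      rw [List.length_take]
      exact min_le_left _ _
    have ht : tm k (qr r x a) ≤ tw k r x := Nat.pow_le_pow_left (by omega) _
    rcases hb : B (qr r x a) with _ | _
    · have h3 : Bᶜ (qr r x a) = true := by simp [hb]
      obtain ⟨w, hw⟩ := (h2 k (hk ▸ le_max_right _ _) _).1 h3
      have hw' := accT_mono hw ht
      refine ⟨w, accT_len hw', ?_⟩
      unfold cert
      rw [if_neg, if_pos hw']
      intro hc
      have := acc_of_accT h1 hc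
      rw [hb] at this
      exact absurd this (by simp)
    · obtain ⟨w, hw⟩ := (h1 k (hk ▸ le_max_left _ _) _).1 hb
      have hw' := accT_mono hw ht
      refine ⟨w, accT_len hw', ?_⟩
      unfold cert
      rw [if_pos hw']
  refine mem_np_of (pf_relW c1 c2 k r v) (b := fun x => tq r x * (4 * tw k r x + 2) + 1) ?_ ?_ ?_
  · have hb1 : PB (fun x => tq r x) := (pf_tq r PF.id).size.mono fun x => by
      rw [sz_nat]; omega
    have hb2 : PB (fun x => tw k r x) := (pf_tw k r PF.id).size.mono fun x => by
      rw [sz_nat]; omega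
    exact (hb1.mul (((PB.const 4).mul hb2).add (PB.const 2))).add (PB.const 1)
  · intro x w hw
    unfold relW at hw
    rw [Bool.and_eq_true, decide_eq_true_eq] at hw
    obtain ⟨hw1, hw2⟩ := hw
    rw [hL, ΩT_eq]
    dsimp only at hw1 hw2
    rcases h3 : runW c1 c2 k r x (lst w) with _ | a
    · rw [h3] at hw2
      simp at hw2
    · rw [h3] at hw2
      have h4 := askW_sound (hcert x) _ 0 a h3
      rw [Nat.zero_add, hw1] at h4
      rw [← h4]
      simpa using hw2
  · intro x hx
    rw [hL, ΩT_eq] at hx
    obtain ⟨ws, hl, hlw, hr⟩ := askW_total (c1 := c1) (c2 := c2) (T := tw k r x) (q := qr r x)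
      (B := B) (tq r x) (tw k r x) fun j _ => hex x _
    refine ⟨ser (enc ws), ?_, ?_⟩
    · have h3 : (ser (enc ws)).length = sz ws := rfl
      rw [h3]
      refine (sz_list_le ws (4 * tw k r x + 1) fun w hw => ?_).trans ?_
      · have := sz_str w
        have := hlw w hw
        omega
      · rw [hl]
    · unfold relW
      rw [Bool.and_eq_true, decide_eq_true_eq]
      dsimp only
      rw [lst_ser]
      refine ⟨hl, ?_⟩
      unfold runW
      rw [hr]
      simpa using hx

/-- `NP ∩ coNP` is closed under polynomial-time Turing reductions -/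
theorem ΩT_closed (r : ℕ) {B : DecisionProblem} (hB : B ∈ NP ∩ coNP) : ΩT r B ∈ NP ∩ coNP := by
  refine ⟨ΩT_aux r hB true fun x => Iff.rfl, ?_⟩
  change (ΩT r B)ᶜ ∈ NP
  exact ΩT_aux r hB false fun x => by simp

/-- the family of all polynomial-time Turing reductions -/
def FT : Fn where
  cls _ := NP ∩ coNP
  Ω _ := ΩT
  ΩB _ := ΩTB
  sound _ := ΩTB_sound
  total _ := ΩTB_total
  closed _ r _ hB := ΩT_closed r hB
  pf ho _ hr hx hN := pf_ΩTB ho hr hx hN

end Pool.Agent.T9h21.UB
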