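import Pool.Prelude.Def_F_458e953d

/-!
# Polynomial-time Turing reductions, the join, hardness for `NP ∩ coNP`

`DecisionProblem`, `NP`, `coNP`, `IsPolyTime` and `ManyOneReducible` are the notions of the frozen
statements.
-/

set_option autoImplicit false

namespace Pool.Agent.T9h21.UB

open N68a2faeb N793a5b8e

/-- The first `n` answers of the oracle `B` on the input `x`: the next query `q (x, a)` depends on
the input and the list `a` of the answers so far. -/
def oracleAnswers (q : List Bool × List Bool → List Bool) (B : DecisionProblem) (x : List Bool) :
    ℕ → List Bool
  | 0 => []
  | n + 1 => oracleAnswers q B x n ++ [B (q (x, oracleAnswers q B x n))]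

/-- `A` is polynomial-time Turing reducible to `B`: polynomially many queries, each of them
computed in polynomial time from the input and the previous answers, and the decision is computed
in polynomial time from the input and all the answers. -/
def TuringReducible (A B : DecisionProblem) : Prop :=
  ∃ (q : List Bool × List Bool → List Bool) (d : List Bool × List Bool → Bool) (p : Polynomial ℕ),
    IsPolyTime q ∧ IsPolyTime d ∧
      ∀ x, A x = d (x, oracleAnswers q B x (p.eval x.length))

/-- the join (disjoint union) of two languages -/
def join (L M : DecisionProblem) : DecisionProblem := fun z =>
  if z.headD false then M z.tail else L z.tail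

/-- `K` is hard for `NP ∩ coNP` -/
def Hard (K : DecisionProblem) : Prop := ∀ L ∈ NP ∩ coNP, ManyOneReducible L K

end Pool.Agent.T9h21.UB
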