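import Pool.Agent.T9h21.UB.Defs

/-!
# The polynomial hierarchy relative to a language
-/

set_option autoImplicit false

namespace Pool.Agent.T9h21.UB

open N68a2faeb N793a5b8e

/-- `NP` relative to `K`: certificates of polynomial length, checked by a language which is
polynomial-time Turing reducible to `K` (on the standard codes of pairs). -/
def NPRel (K : DecisionProblem) : DecisionComplexityClass :=
  {L | ∃ (p : Polynomial ℕ) (M : DecisionProblem), TuringReducible M K ∧
    ∀ x, L x = true ↔ ∃ w : List Bool, w.length ≤ p.eval x.length ∧
      M (N487b59b3.bitEncode (x, w)) = true}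

/-- The level `m` of the polynomial hierarchy relative to `K`: the level `0` is `P` relative to
`K`, the level `1` is `NP` relative to `K`, and the level `m + 2` is the union of `NP` relative to
`M` over all `M` in the level `m + 1`. -/
def SigmaRel : ℕ → DecisionProblem → DecisionComplexityClass
  | 0, K => {L | TuringReducible L K}
  | 1, K => NPRel K
  | m + 2, K => {L | ∃ M ∈ SigmaRel (m + 1) K, L ∈ NPRel M}

/-- The level `m` of the polynomial hierarchy. -/
def SigmaP (m : ℕ) : DecisionComplexityClass := SigmaRel m (fun _ => false)

end Pool.Agent.T9h21.UB
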