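import Pool.Agent.T9h21.UB.Poly
import Pool.Agent.T9h21.UB.Defs

/-!
# All stages end
-/

set_option autoImplicit false

namespace Pool.Agent.T9h21.UB

open Turing Computability N68a2faeb N793a5b8e
open Pool.Agent.H583R2
open Pool.Agent.T9h49.SC hiding found act stp st upd badN RK RN KK NN Good

theorem empty_mem : (fun _ => false : DecisionProblem) ∈ NP ∩ coNP := by
  constructor
  · refine mem_np (R := fun _ => false) (PF.const false) fun x => ?_
    simp
  · change ((fun _ => false : DecisionProblem))ᶜ ∈ NP
    refine mem_np (R := fun _ => true) (PF.const true) fun x => ?_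
    simp
    exact ⟨[], by simp⟩

section
variable {K : DecisionProblem} (E : Ev fun _ => K) {A : ℕ → DecisionProblem} (EA : Ev A) (F : Fn)
  (hA : ∀ m, A m ∉ F.cls m)

include hA in
theorem exists_chk (n₀ : ℕ) : ∃ n, n₀ ≤ n ∧ chk E EA F (S E EA F n) n = true := by
  by_contra hne
  push Not at hne
  obtain ⟨h1, h2⟩ := chk_total E EA F (n₀ := n₀) fun n hn => by
    rw [← Bool.not_eq_true]; exact hne n hn
  refine hA (Nat.unpair (hlf (S E EA F n₀).length)).1 ?_
  rw [h2]
  exact F.closed _ _ _ (KS_mem E EA F h1)

theorem S_succ_of_chk {n : ℕ} (h : chk E EA F (S E EA F n) n = true) :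
    (S E EA F (n + 1)).length = (S E EA F n).length + 1 := by
  have e : S E EA F (n + 1) = if chk E EA F (S E EA F n) n then S E EA F n ++ [n + 1]
    else S E EA F n := rfl
  rw [e, if_pos h, List.length_append, List.length_singleton]

theorem S_succ_of_not {n : ℕ} (h : ¬ chk E EA F (S E EA F n) n = true) :
    S E EA F (n + 1) = S E EA F n := by
  have e : S E EA F (n + 1) = if chk E EA F (S E EA F n) n then S E EA F n ++ [n + 1]
    else S E EA F n := rfl
  rw [e, if_neg h]

include hA in
theorem exists_stage (n₀ : ℕ) : ∃ n, n₀ ≤ n ∧ chk E EA F (S E EA F n) n = true ∧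
    S E EA F n = S E EA F n₀ := by
  classical
  have h := exists_chk E EA F hA n₀
  obtain ⟨h1, h2⟩ := Nat.find_spec h
  refine ⟨Nat.find h, h1, h2, ?_⟩
  have key : ∀ m, n₀ ≤ m → m ≤ Nat.find h → S E EA F m = S E EA F n₀ := by
    intro m hm
    induction m, hm using Nat.le_induction with
    | base => intro _; rfl
    | succ m hm ih =>
      intro hlt
      rw [S_succ_of_not E EA F, ih (by omega)]
      intro hc
      exact Nat.find_min h (by omega : m < Nat.find h) ⟨hm, hc⟩
  exact key _ h1 le_rfl

include hA in
theorem exists_len (i : ℕ) : ∃ n, (S E EA F n).length = i ∧ chk E EA F (S E EA F n) n = true := by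
  induction i with
  | zero =>
    obtain ⟨n, _, h2, h3⟩ := exists_stage E EA F hA 0
    exact ⟨n, by rw [h3]; rfl, h2⟩
  | succ i ih =>
    obtain ⟨n, h1, h2⟩ := ih
    obtain ⟨n', _, h4, h5⟩ := exists_stage E EA F hA (n + 1)
    exact ⟨n', by rw [h5, S_succ_of_chk E EA F h2, h1], h4⟩

theorem S_mono {m n : ℕ} (h : m ≤ n) : (S E EA F m).length ≤ (S E EA F n).length := by
  induction n, h using Nat.le_induction with
  | base => exact le_rfl
  | succ n _ ih =>
    by_cases hc : chk E EA F (S E EA F n) n = true
    · rw [S_succ_of_chk E EA F hc]; omega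
    · rw [S_succ_of_not E EA F hc]; exact ih

include hA in
/-- none of the languages `A m` is the image of `K_s` under a reduction of the family -/
theorem avoid (s m r : ℕ) : A m ≠ F.Ω m r (KS E EA F s) := by
  obtain ⟨n, h1, h2⟩ := exists_len E EA F hA (Nat.pair s (Nat.pair m r))
  have h3 := chk_sound E EA F h2
  rw [h1] at h3
  unfold hlf par at h3
  rw [Nat.unpair_pair] at h3
  dsimp only at h3
  rw [Nat.unpair_pair] at h3
  exact h3

include hA in
/-- `K_s` is hard -/
theorem hard (hK : ∀ L ∈ NP ∩ coNP, ManyOneReducible L K) (s : ℕ) :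
    ∀ L ∈ NP ∩ coNP, ManyOneReducible L (KS E EA F s) := by
  intro L hL
  obtain ⟨e, hg, hLe⟩ := exists_good hL (hK L hL)
  obtain ⟨J, hJ, _⟩ := exists_len E EA F hA (e + 1)
  refine ⟨fun x => false :: inst e x (tm (ke e) x + J), ?_, fun x => ?_⟩
  · refine isPolyTime_of_pf (PF.cons (PF.const false) (pf_inst (PF.const e) PF.id (PF.add ?_
      (PF.const J))))
    exact pf_powK (PF.add (PF.length PF.id) (PF.const 2)) (ke e)
  · set y := inst e x (tm (ke e) x + J) with hy
    have hlen : tm (ke e) x + J ≤ (false :: y).length := by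
      have := le_inst e x (tm (ke e) x + J)
      rw [List.length_cons, hy]
      omega
    have hS : e < (S E EA F (false :: y).length).length := by
      have := S_mono E EA F ((Nat.le_add_left J (tm (ke e) x)).trans hlen)
      omega
    have hc : cnd E (S E EA F (false :: y).length) (false :: y).length y = true := by
      unfold cnd
      have e1 : iE y = e := by rw [hy, iE_inst]
      have e2 : iX y = x := by rw [hy, iX_inst]
      rw [Bool.and_eq_true, Bool.and_eq_true, decide_eq_true_eq, Bool.not_eq_true',
        decide_eq_true_eq, e1, e2, lv_self]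
      refine ⟨⟨hS, ?_⟩, ?_⟩
      · by_contra hf
        rw [Bool.not_eq_false] at hf
        exact not_good_of_found E hf hg
      · unfold tmC
        exact (min_le_left _ _).trans ((Nat.le_add_right _ _).trans hlen)
    unfold KS Rd
    rw [if_neg (by simp), List.tail_cons, if_pos hc]
    dsimp only
    have e1 : iE y = e := by rw [hy, iE_inst]
    have e2 : iX y = x := by rw [hy, iX_inst]
    rw [e1, e2, phiC_eq ((Nat.le_add_right _ _).trans hlen)]
    exact hLe x

/-- `K` is reducible to the join -/
theorem le_join {s t : ℕ} (hst : s ≠ t) :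
    ManyOneReducible K (join (KS E EA F s) (KS E EA F t)) := by
  refine ⟨fun x => decide (par (lv (S E EA F (x.length + 1)) (x.length + 1)) = s) :: true :: x,
    ?_, fun x => ?_⟩
  · exact isPolyTime_of_pf (PF.cons (PF.natEq (pf_par (pf_lv (pf_S E EA F (PF.succ
      (PF.length PF.id))) (PF.succ (PF.length PF.id)))) (PF.const s)) (PF.cons (PF.const true)
      PF.id))
  · have hlen : (true :: x).length = x.length + 1 := rfl
    set v := par (lv (S E EA F (x.length + 1)) (x.length + 1)) with hv
    have hk : ∀ s, v ≠ s → KS E EA F s (true :: x) = K x := by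
      intro s hs
      unfold KS Rd
      rw [hlen, if_pos (by simp), if_neg (by simpa [← hv] using hs)]
      rfl
    unfold join
    rw [List.headD_cons, List.tail_cons, ← hv]
    by_cases h0 : v = s
    · rw [if_pos (by simpa using h0)]
      exact (hk t (by omega)).symm
    · rw [if_neg (by simpa using h0)]
      exact (hk s h0).symm

end

/-- the main theorem for a family of reductions -/
theorem split (F : Fn) {K : DecisionProblem} (E : Ev fun _ => K)
    (hK : ∀ L ∈ NP ∩ coNP, ManyOneReducible L K) {A : ℕ → DecisionProblem} (EA : Ev A)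
    (hA : ∀ m, A m ∉ F.cls m) :
    ∃ K' : ℕ → DecisionProblem, (∀ s, ManyOneReducible (K' s) K) ∧
      (∀ s t, s ≠ t → ManyOneReducible K (join (K' s) (K' t))) ∧
      (∀ s, ∀ L ∈ NP ∩ coNP, ManyOneReducible L (K' s)) ∧
      ∀ s m r, A m ≠ F.Ω m r (K' s) := by
  obtain ⟨f, _, hf⟩ := hK _ empty_mem
  have hno : K (f []) = false := (hf []).symm
  exact ⟨KS E EA F, KS_red E EA F hno, fun _ _ h => le_join E EA F h,
    hard E EA F hA hK, avoid E EA F hA⟩

end Pool.Agent.T9h21.UB
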