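import Pool.Agent.T9h49.SC.IO
import Pool.Agent.T9h49.SC.Comp

/-!
# Evaluation of languages with a budget
-/

set_option autoImplicit false

namespace Pool.Agent.T9h21.UB

open Turing Computability N68a2faeb N793a5b8e
open Pool.Agent.H583R2 hiding Code
open Pool.Agent.T9h49.SC

/-- the languages `A 0`, `A 1`, ... are evaluated with a budget in polynomial time -/
structure Ev (A : ℕ → DecisionProblem) where
  /-- the value of `A i x`, if the budget suffices -/
  ev : ℕ → List Bool → ℕ → Option Bool
  pf : ∀ {α : Type} [TEnc α] {i N : α → ℕ} {x : α → List Bool}, PF i → PF x → PF N →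
    PF (fun a => ev (i a) (x a) (N a))
  sound : ∀ i x N b, ev i x N = some b → A i x = b
  total : ∀ i x, ∃ N₀, ∀ N, N₀ ≤ N → ev i x N = some (A i x)

/-! ### languages in `NP` -/

/-- languages in `NP` are evaluated by exhaustive search -/
theorem exists_ev_np {L : DecisionProblem} (hL : L ∈ NP) : Nonempty (Ev fun _ => L) := by
  obtain ⟨c, k, h⟩ := np_nf hL
  have h := h k le_rfl
  refine ⟨⟨fun _ x N => if enough k x N then some (accN c k x N) else none, ?_, ?_, ?_⟩⟩
  · intro α _ i N x hi hx hN
    exact PF.ite (pf_enough (PF.const k) hx hN)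
      (PF.mkSome (pf_accN (PF.const c) (PF.const k) hx hN)) (PF.const none)
  · intro i x N b hb
    split_ifs at hb with he
    have h1 : accN c k x N = b := Option.some.inj hb
    rw [← h1, Bool.eq_iff_iff, accN_iff he]
    exact h x
  · intro i x
    refine ⟨2 ^ (tm k x + 1), fun N hN => ?_⟩
    have he := (enough_iff (k := k) (x := x) (N := N)).2 hN
    rw [if_pos he]
    congr 1
    rw [Bool.eq_iff_iff, accN_iff he]
    exact (h x).symm

/-! ### computable languages -/

/-- the number of a bit -/
def bn (b : Bool) : ℕ := if b then 1 else 0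

theorem encode_bool (b : Bool) : Encodable.encode b = bn b := by cases b <;> rfl

/-- the number of a string, capped -/
def encC (N : ℕ) (x : List Bool) : ℕ :=
  x.foldr (fun b v => min (N + 1) (Nat.pair (bn b) v + 1)) 0

theorem encC_eq (N : ℕ) (x : List Bool) : encC N x = min (N + 1) (Encodable.encode x) := by
  induction x with
  | nil => simp [encC]
  | cons b x ih =>
    have e : encC N (b :: x) = min (N + 1) (Nat.pair (bn b) (encC N x) + 1) := rfl
    have e' : Encodable.encode (b :: x) = Nat.pair (bn b) (Encodable.encode x) + 1 := by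
      rw [Encodable.encode_list_cons, encode_bool]
    rw [e, e', ih]
    rcases le_total (Encodable.encode x) (N + 1) with h | h
    · rw [min_eq_right h]
    · rw [min_eq_left h]
      have h1 := Nat.right_le_pair (bn b) (N + 1)
      have h2 := Nat.right_le_pair (bn b) (Encodable.encode x)
      rw [min_eq_left (by omega), min_eq_left (by omega)]

theorem pf_encC {α : Type} [TEnc α] {N : α → ℕ} {x : α → List Bool} (hN : PF N) (hx : PF x) :
    PF (fun a => encC (N a) (x a)) := by
  have hN1 : PF (fun p : α × Bool × ℕ => N p.1 + 1) := PF.succ (hN.comp PF.fst)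
  have hb : PF (fun p : α × Bool × ℕ => bn p.2.1) :=
    PF.ite (PF.fst' PF.snd) (PF.const 1) (PF.const 0)
  exact PF.foldrAdd (l := x) (s := fun _ => 0)
    (f := fun a b v => min (N a + 1) (Nat.pair (bn b) v + 1)) hx (PF.const 0)
    (PF.min hN1 (PF.succ (pf_pair hb (PF.snd' PF.snd)))) (inc := fun _ => 0)
    (bnd := fun a => sz (N a) + 2) (PB.const 0) (hN.size.add (PB.const 2)) (by
      intro a b _ st
      refine le_trans ?_ (le_max_right _ _)
      rw [sz_nat, sz_nat]
      omega)

open Nat.Partrec (Code) in
/-- computable languages are evaluated by bounded search -/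
theorem exists_ev {A : ℕ → DecisionProblem} (hA : Computable₂ A) : Nonempty (Ev A) := by
  obtain ⟨c, hc⟩ := Nat.Partrec.Code.exists_code.1 (show Nat.Partrec _ from hA.partrec)
  have hev : ∀ i x v, v ∈ c.eval (Nat.pair i (Encodable.encode x)) ↔ v = bn (A i x) := by
    intro i x v
    have e : (Encodable.decode (Nat.pair i (Encodable.encode x)) : Option (ℕ × List Bool)) =
        some (i, x) := by
      have := Encodable.encodek (i, x)
      rwa [Encodable.encode_prod_val] at this
    have h1 := congrFun hc (Nat.pair i (Encodable.encode x))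
    beta_reduce at h1
    rw [h1, e]
    simp [encode_bool]
  refine ⟨⟨fun i x N => if encC N x ≤ N then
    (Nat.Partrec.Code.evaln N c (Nat.pair i (encC N x))).bind (fun v => some (decide (v = 1)))
    else none, ?_, ?_, ?_⟩⟩
  · intro α _ i N x hi hx hN
    refine (PF.ite (PF.le (pf_encC hN hx) hN)
      (pf_bind ((pf_evaln c).comp (PF.pair hN (pf_pair hi (pf_encC hN hx))))
        (f := fun _ v => some (decide (v = 1))) (PF.mkSome (PF.natEq PF.snd (PF.const 1))))
      (PF.const none)).congr fun a => ?_
    by_cases h : encC (N a) (x a) ≤ N a <;> simp [h]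
  · intro i x N b hb
    split_ifs at hb with h1
    have h2 : encC N x = Encodable.encode x := by
      rw [encC_eq] at h1 ⊢
      omega
    rw [h2] at hb
    rcases h3 : Nat.Partrec.Code.evaln N c (Nat.pair i (Encodable.encode x)) with _ | v
    · rw [h3] at hb; simp at hb
    · rw [h3] at hb
      have h4 := (hev i x v).1 (Nat.Partrec.Code.evaln_sound (by rw [h3]; rfl))
      have h5 : decide (v = 1) = b := Option.some.inj hb
      rw [← h5, h4]
      cases A i x <;> simp [bn]
  · intro i x
    obtain ⟨k, hk⟩ := Nat.Partrec.Code.evaln_complete.1 ((hev i x (bn (A i x))).2 rfl)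
    refine ⟨max k (Encodable.encode x), fun N hN => ?_⟩
    have h2 : encC N x = Encodable.encode x := by
      rw [encC_eq]
      have := (le_max_right k (Encodable.encode x)).trans hN
      omega
    rw [h2, if_pos ((le_max_right _ _).trans hN)]
    have h3 : Nat.Partrec.Code.evaln N c (Nat.pair i (Encodable.encode x)) =
        some (bn (A i x)) := Nat.Partrec.Code.evaln_mono ((le_max_left _ _).trans hN) hk
    rw [h3]
    cases A i x <;> simp [bn]

theorem exists_ev1 {K : DecisionProblem} (hK : Computable K) : Nonempty (Ev fun _ => K) :=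
  exists_ev (A := fun _ => K) (hK.comp Computable.snd)

end Pool.Agent.T9h21.UB
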