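import Pool.Agent.T9h21.UB.Red

/-!
# Upper bounds of `NP ∩ coNP`
-/

set_option autoImplicit false

namespace Pool.Agent.T9h21.UB

open Turing Computability N68a2faeb N793a5b8e
open Pool.Agent.H583R2
open Pool.Agent.T9h49.SC hiding found act stp st upd badN RK RN KK NN Good

/-! ### a complete language for `NP` -/

/-- the verifier of the universal language -/
def relU (p : List Bool × List Bool) : Bool :=
  decide (tmC (ke (iE p.1)) (iX p.1) (p.1.length + 1) ≤ p.1.length) &&
    accT (jx (iE p.1)).1 (tmC (ke (iE p.1)) (iX p.1) p.1.length) (iX p.1) p.2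

open Classical in
/-- the universal language -/
noncomputable def UL : DecisionProblem := fun z =>
  decide (∃ w : List Bool, w.length ≤ z.length ∧ relU (z, w) = true)

theorem pf_relU : PF relU := by
  have h1 : PF (fun p : List Bool × List Bool => iE p.1) := pf_iE PF.fst
  have h2 : PF (fun p : List Bool × List Bool => iX p.1) := pf_iX PF.fst
  have h3 : PF (fun p : List Bool × List Bool => p.1.length) := PF.length PF.fst
  have h4 : PF (fun p : List Bool × List Bool =>
      decide (tmC (ke (iE p.1)) (iX p.1) (p.1.length + 1) ≤ p.1.length)) :=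
    PF.le (pf_tmC (pf_ke h1) h2 (PF.succ h3)) h3
  have h5 : PF (fun p : List Bool × List Bool =>
      accT (jx (iE p.1)).1 (tmC (ke (iE p.1)) (iX p.1) p.1.length) (iX p.1) p.2) :=
    pf_accT (PF.fst' (pf_jx h1)) (pf_tmC (pf_ke h1) h2 h3) h2 PF.snd
  refine (PF.and h4 h5).congr fun p => ?_
  unfold relU
  rfl

theorem UL_np : UL ∈ NP := mem_np pf_relU fun z => by simp [UL]

theorem UL_hard {L : DecisionProblem} (hL : L ∈ NP) : ManyOneReducible L UL := by
  obtain ⟨c, k, h⟩ := np_nf hL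
  obtain ⟨e, he⟩ := exists_jx (c, c, k, c)
  have hke : ke e = k := by unfold ke; rw [he]
  refine ⟨fun x => inst e x (tm k x), isPolyTime_of_pf (pf_inst (PF.const e) PF.id (pf_tm k)),
    fun x => ?_⟩
  have hlen := le_inst e x (tm k x)
  rw [Bool.eq_iff_iff, h k le_rfl x, ← search_iff hlen]
  have hUL : UL (inst e x (tm k x)) = true ↔ ∃ w : List Bool,
      w.length ≤ (inst e x (tm k x)).length ∧ relU (inst e x (tm k x), w) = true := by
    simp [UL]
  rw [hUL]
  have e1 : ∀ w, relU (inst e x (tm k x), w) =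
      accT c (tmC k x (inst e x (tm k x)).length) x w := by
    intro w
    unfold relU
    dsimp only
    rw [iE_inst, iX_inst, hke, he]
    rw [decide_eq_true (tmC_succ_le.2 hlen), Bool.true_and]
  simp only [e1]

/-! ### the join -/

theorem join_red {K₀ K₁ K : DecisionProblem} (h0 : ManyOneReducible K₀ K)
    (h1 : ManyOneReducible K₁ K) : ManyOneReducible (join K₀ K₁) K := by
  obtain ⟨f, hf, hfK⟩ := h0
  obtain ⟨g, hg, hgK⟩ := h1
  refine ⟨fun z => if z.headD false then g z.tail else f z.tail,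
    isPolyTime_of_pf (PF.ite (PF.headD PF.id (PF.const false))
      ((pf_of_isPolyTime hg).comp (PF.tail PF.id)) ((pf_of_isPolyTime hf).comp (PF.tail PF.id))),
    fun z => ?_⟩
  unfold join
  dsimp only
  rcases z.headD false with _ | _
  · exact hfK _
  · exact hgK _

theorem manyOne_trans {A B C : DecisionProblem} (h1 : ManyOneReducible A B)
    (h2 : ManyOneReducible B C) : ManyOneReducible A C := by
  obtain ⟨f, hf, hfK⟩ := h1
  obtain ⟨g, hg, hgK⟩ := h2
  exact ⟨fun x => g (f x), isPolyTime_of_pf ((pf_of_isPolyTime hg).comp (pf_of_isPolyTime hf)),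
    fun x => by rw [hfK, hgK]⟩

/-! ### consequences -/

theorem exists_evOr {K : DecisionProblem} (h : K ∈ NP ∨ Computable K) :
    Nonempty (Ev fun _ => K) := h.elim exists_ev_np exists_ev1

/-- the sequence `K, A 0, A 1, ...` -/
def cns (K : DecisionProblem) (A : ℕ → DecisionProblem) (n : ℕ) : DecisionProblem :=
  if n = 0 then K else A (n - 1)

/-- evaluation of a longer sequence -/
def evCons {K : DecisionProblem} {A : ℕ → DecisionProblem} (E : Ev fun _ => K) (EA : Ev A) :
    Ev (cns K A) where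
  ev i x N := if decide (i = 0) then E.ev 0 x N else EA.ev (i - 1) x N
  pf hi hx hN := PF.ite (PF.natEq hi (PF.const 0)) (E.pf (PF.const 0) hx hN)
    (EA.pf (PF.sub hi (PF.const 1)) hx hN)
  sound := by
    intro i x N b h
    unfold cns
    by_cases h0 : i = 0
    · rw [if_pos (by simpa using h0)] at h
      rw [if_pos h0]
      exact E.sound _ _ _ _ h
    · rw [if_neg (by simpa using h0)] at h
      rw [if_neg h0]
      exact EA.sound _ _ _ _ h
  total := by
    intro i x
    unfold cns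
    by_cases h0 : i = 0
    · obtain ⟨N₀, h⟩ := E.total 0 x
      refine ⟨N₀, fun N hN => ?_⟩
      rw [if_pos (by simpa using h0), if_pos h0]
      exact h N hN
    · obtain ⟨N₀, h⟩ := EA.total (i - 1) x
      refine ⟨N₀, fun N hN => ?_⟩
      rw [if_neg (by simpa using h0), if_neg h0]
      exact h N hN

/-- splitting with cone avoidance -/
theorem main1 {K : DecisionProblem} (hc : K ∈ NP ∨ Computable K) (hK : Hard K)
    (hn : K ∉ NP ∩ coNP) {A : ℕ → DecisionProblem} (hA : Computable₂ A)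
    (hA' : ∀ m, A m ∉ NP ∩ coNP) :
    ∃ K' : ℕ → DecisionProblem,
      (∀ s, Hard (K' s) ∧ ManyOneReducible (K' s) K ∧ ¬ TuringReducible K (K' s)) ∧
      (∀ s t, s ≠ t → ManyOneReducible K (join (K' s) (K' t)) ∧
        ¬ TuringReducible (K' s) (K' t)) ∧
      ∀ s m, ¬ TuringReducible (A m) (K' s) := by
  obtain ⟨E⟩ := exists_evOr hc
  obtain ⟨EA⟩ := exists_ev hA
  have hA'' : ∀ m, cns K A m ∉ NP ∩ coNP := by
    intro m
    unfold cns
    split_ifs
    · exact hn
    · exact hA' _
  obtain ⟨K', h1, h2, h3⟩ := splitT E hK (evCons E EA) hA''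
  have hKs : ∀ s, ¬ TuringReducible K (K' s) := fun s => h3 s 0
  exact ⟨K', fun s => ⟨(h1 s).1, (h1 s).2, hKs s⟩,
    fun s t hst => ⟨h2 s t hst, incomparable (h2 s t hst) (hKs t)⟩, fun s m => h3 s (m + 1)⟩

/-- the special case of one language -/
theorem main2 {K : DecisionProblem} (hc : K ∈ NP ∨ Computable K) (hK : Hard K)
    (hn : K ∉ NP ∩ coNP) :
    ∃ K' : ℕ → DecisionProblem,
      (∀ s, Hard (K' s) ∧ ManyOneReducible (K' s) K ∧ ¬ TuringReducible K (K' s)) ∧
      (∀ s t, s ≠ t → ManyOneReducible K (join (K' s) (K' t)) ∧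
        ¬ TuringReducible (K' s) (K' t)) := by
  obtain ⟨E⟩ := exists_evOr hc
  obtain ⟨K', h1, h2, h3⟩ := splitT E hK (A := fun _ => K) E fun _ => hn
  exact ⟨K', fun s => ⟨(h1 s).1, (h1 s).2, h3 s 0⟩,
    fun s t hst => ⟨h2 s t hst, incomparable (h2 s t hst) (h3 t 0)⟩⟩

/-- a complete language exists iff there is a minimal upper bound -/
theorem main3 : (∃ L : DecisionProblem, IsCompleteFor (NP ∩ coNP) L) ↔
    ∃ K ∈ NP, Hard K ∧ ∀ K' : DecisionProblem, Hard K' → ManyOneReducible K' K →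
      TuringReducible K K' := by
  constructor
  · rintro ⟨L, hL, hL'⟩
    exact ⟨L, hL.1, hL', fun K' hK' _ => turing_of_manyOne (hK' L hL)⟩
  · rintro ⟨K, hK, hh, hmin⟩
    by_contra hne
    have hn : K ∉ NP ∩ coNP := fun h => hne ⟨K, h, hh⟩
    obtain ⟨K', h1, _⟩ := main2 (Or.inl hK) hh hn
    exact (h1 0).2.2 (hmin (K' 0) (h1 0).1 (h1 0).2.1)

/-- `NP ∩ coNP` is the intersection of the cones below its upper bounds in `NP` -/
theorem main4 (L : DecisionProblem) : L ∈ NP ∩ coNP ↔
    ∀ K ∈ NP, Hard K → TuringReducible L K := by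
  constructor
  · intro hL K _ hK
    exact turing_of_manyOne (hK L hL)
  · intro h
    by_contra hn
    have hU : Hard UL := fun L hL => UL_hard hL.1
    obtain ⟨EU⟩ := exists_ev_np UL_np
    obtain ⟨EL⟩ := ev_of_turing EU (h UL UL_np hU)
    obtain ⟨K', h1, _, h3⟩ := splitT EU hU (A := fun _ => L) EL fun _ => hn
    exact h3 0 0 (h _ (np_of_red UL_np (h1 0).2) (h1 0).1)

/-- if `NP ≠ coNP` then some languages in `NP` are hard for `NP ∩ coNP`, but not complete for
`NP` -/
theorem main5 (hne : NP ≠ coNP) : ∃ K' : ℕ → DecisionProblem,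
    (∀ s, K' s ∈ NP ∧ Hard (K' s) ∧ ∃ L ∈ NP, ¬ TuringReducible L (K' s)) ∧
    ∀ s t, s ≠ t → ¬ TuringReducible (K' s) (K' t) ∧ IsCompleteFor NP (join (K' s) (K' t)) := by
  have hU : Hard UL := fun L hL => UL_hard hL.1
  have hn : UL ∉ NP ∩ coNP := by
    rintro ⟨_, h⟩
    have h1 : ∀ L ∈ NP, L ∈ coNP := by
      intro L hL
      obtain ⟨f, hf, hfL⟩ := UL_hard hL
      change Lᶜ ∈ NP
      exact np_of_red (M := ULᶜ) h ⟨f, hf, fun x => by simp [hfL x]⟩
    apply hne
    ext L
    refine ⟨h1 L, fun hL => ?_⟩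
    have h2 : Lᶜ ∈ coNP := h1 _ hL
    have h3 : Lᶜᶜ ∈ NP := h2
    rwa [compl_compl] at h3
  obtain ⟨K', h1, h2⟩ := main2 (Or.inl UL_np) hU hn
  exact ⟨K', fun s => ⟨np_of_red UL_np (h1 s).2.1, (h1 s).1, UL, UL_np, (h1 s).2.2⟩,
    fun s t hst => ⟨(h2 s t hst).2, np_of_red UL_np (join_red (h1 s).2.1 (h1 t).2.1),
      fun L hL => manyOne_trans (UL_hard hL) (h2 s t hst).1⟩⟩

/-- a computable sequence of upper bounds that is coinitial among the upper bounds in `NP` gives a
complete language -/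
theorem main6 {A : ℕ → DecisionProblem} (hA : Computable₂ A) (hh : ∀ m, Hard (A m))
    (hc : ∀ K ∈ NP, Hard K → ∃ m, TuringReducible (A m) K) :
    ∃ L : DecisionProblem, IsCompleteFor (NP ∩ coNP) L := by
  by_contra hne
  have hU : Hard UL := fun L hL => UL_hard hL.1
  obtain ⟨K', h1, _, h6⟩ := main1 (Or.inl UL_np) hU (fun h => hne ⟨UL, h, hU⟩) hA
    (fun m h => hne ⟨A m, h, hh m⟩)
  obtain ⟨m, hm⟩ := hc _ (np_of_red UL_np (h1 0).2.1) (h1 0).1
  exact h6 0 m hm

end Pool.Agent.T9h21.UB
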