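import Pool.Agent.T9h21.UB.Lev
import Pool.Agent.T9h21.UB.Main

/-!
# Hard languages outside the high hierarchy
-/

set_option autoImplicit false

namespace Pool.Agent.T9h21.UB

open Turing Computability N68a2faeb N793a5b8e
open Pool.Agent.H583R2
open Pool.Agent.T9h49.SC hiding found act stp st upd badN RK RN KK NN Good

/-- the family of all reductions of the levels of the hierarchy; the requirement `m` has the
level `ℓ m + 1` -/
noncomputable def FS (ℓ : ℕ → ℕ) (hℓ : PF ℓ) : Fn where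
  cls m := SigmaP (ℓ m + 1)
  Ω m r B := fun x => J^[ℓ m + 1] B (phi r x)
  ΩB m r o x N := if decide (tmC (ke r) x (N + 1) ≤ N) then
    look (VT o N (ℓ m + 1)) (phiC r x N) else none
  sound := by
    intro m r o B x N b ho h
    split_ifs at h with h1
    rw [decide_eq_true_eq, tmC_succ_le] at h1
    rw [phiC_eq h1] at h
    exact VT_sound ho N (ℓ m + 1) _ _ h
  total := by
    intro m r B x
    refine ⟨max (tm (ke r) x) (2 ^ ((phi r x).length + 1)), fun o N hN ho => ?_⟩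
    have h1 : tm (ke r) x ≤ N := (le_max_left _ _).trans hN
    have h2 := (le_max_right (tm (ke r) x) (2 ^ ((phi r x).length + 1))).trans hN
    have h3 : (phi r x).length ≤ max (tm (ke r) x) (2 ^ ((phi r x).length + 1)) := by
      refine le_trans ?_ (le_max_right _ _)
      have := Nat.lt_two_pow_self (n := (phi r x).length + 1)
      omega
    rw [if_pos (by rw [decide_eq_true_eq, tmC_succ_le]; exact h1), phiC_eq h1]
    exact VT_total B _ N h2 (fun z hz => ho z (hz.trans h3)) (ℓ m + 1) _ le_rfl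
  closed := by
    intro m r B hB
    refine level_closed _ ⟨fun x => phi r x, ?_, fun _ => rfl⟩ (level_sub hB _ (J_level B _))
    have h1 : PF (fun x : List Bool => phiC r x (tm (ke r) x)) :=
      pf_phiC (PF.const r) PF.id (pf_tm (ke r))
    exact isPolyTime_of_pf (h1.congr fun x => phiC_eq le_rfl)
  pf := by
    intro α _ o m r N x ho hm hr hx hN
    have hl : PF (fun a => ℓ (m a) + 1) := PF.succ (hℓ.comp hm)
    exact PF.ite (PF.le (pf_tmC (pf_ke hr) hx (PF.succ hN)) hN)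
      (pf_look (pf_VT ho hN hl) (pf_phiC hr hx hN)) (PF.const none)

/-- every member of a level has an index -/
theorem exists_FS {ℓ : ℕ → ℕ} {hℓ : PF ℓ} {B L : DecisionProblem} {m : ℕ}
    (h : L ∈ SigmaRel (ℓ m + 1) B) : ∃ r, L = (FS ℓ hℓ).Ω m r B := by
  obtain ⟨f, hf, hfL⟩ := level_J (ℓ m) h
  obtain ⟨d, k, hd⟩ := code_of_isPolyTime hf
  obtain ⟨e, he⟩ := exists_jx (d, d, k, d)
  refine ⟨e, funext fun x => ?_⟩
  have hke : ke e = k := by unfold ke; rw [he]
  have hphi : phi e x = f x := by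
    unfold phi
    rw [hke, he]
    dsimp only
    rw [hd x (tm k x) le_rfl, Option.getD_some, uL_eL]
  change L x = J^[ℓ m + 1] B (phi e x)
  rw [hphi, hfL]

/-- splitting with avoidance of the levels of the hierarchy -/
theorem splitS {ℓ : ℕ → ℕ} (hℓ : PF ℓ) {K : DecisionProblem} (E : Ev fun _ => K) (hK : Hard K)
    {A : ℕ → DecisionProblem} (EA : Ev A) (hA : ∀ m, A m ∉ SigmaP (ℓ m + 1)) :
    ∃ K' : ℕ → DecisionProblem, (∀ s, Hard (K' s) ∧ ManyOneReducible (K' s) K) ∧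
      (∀ s t, s ≠ t → ManyOneReducible K (join (K' s) (K' t))) ∧
      ∀ s m, A m ∉ SigmaRel (ℓ m + 1) (K' s) := by
  obtain ⟨K', h1, h2, h3, h4⟩ := split (FS ℓ hℓ) E hK EA hA
  refine ⟨K', fun s => ⟨h3 s, h1 s⟩, h2, fun s m h => ?_⟩
  obtain ⟨r, hr⟩ := exists_FS (hℓ := hℓ) h
  exact h4 s m r hr

theorem pf_fstN : PF (fun m : ℕ => (Nat.unpair m).1) := PF.fst' (pf_unpair PF.id)

/-! ### the jumps of the empty language -/

/-- the empty language -/
def emp : DecisionProblem := fun _ => false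

/-- the iterated jumps are evaluated with a budget -/
noncomputable def evJ {ℓ : ℕ → ℕ} (hℓ : PF ℓ) : Ev (fun n => J^[ℓ n + 2] emp) where
  ev i x N := look (VT (fun _ => some false) N (ℓ i + 2)) x
  pf hi hx hN := pf_look (pf_VT (o := fun _ _ => some false) (PF.const _) hN
    (PF.succ (PF.succ (hℓ.comp hi)))) hx
  sound := by
    intro i x N b h
    refine VT_sound (B := emp) (fun z c hz => ?_) N (ℓ i + 2) _ _ h
    exact Option.some.inj hz
  total := by
    intro i x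
    exact ⟨2 ^ (x.length + 1), fun N hN =>
      VT_total emp x.length N hN (fun z _ => rfl) (ℓ i + 2) _ le_rfl⟩

/-- splitting with avoidance, for computable sequences -/
theorem high1 {K : DecisionProblem} (hc : K ∈ NP ∨ Computable K) (hK : Hard K)
    {A : ℕ → ℕ → DecisionProblem}
    (hA : Computable₂ fun (n : ℕ) (x : List Bool) => A n.unpair.1 n.unpair.2 x)
    (hA' : ∀ m j, A m j ∉ SigmaP (m + 1)) :
    ∃ K' : ℕ → DecisionProblem, (∀ s, Hard (K' s) ∧ ManyOneReducible (K' s) K) ∧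
      (∀ s t, s ≠ t → ManyOneReducible K (join (K' s) (K' t))) ∧
      ∀ s m j, A m j ∉ SigmaRel (m + 1) (K' s) := by
  obtain ⟨E⟩ := exists_evOr hc
  obtain ⟨EA⟩ := exists_ev (A := fun n x => A n.unpair.1 n.unpair.2 x) hA
  obtain ⟨K', h1, h2, h3⟩ := splitS pf_fstN E hK (A := fun n x => A n.unpair.1 n.unpair.2 x) EA
    fun n => hA' n.unpair.1 n.unpair.2
  refine ⟨K', h1, h2, fun s m j h => ?_⟩
  refine h3 s (Nat.pair m j) ?_
  rw [Nat.unpair_pair]
  exact h

theorem J_sigma (m : ℕ) : J^[m + 1] emp ∈ SigmaP (m + 1) := J_level emp m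

theorem sigma_J {m : ℕ} {L : DecisionProblem} (hL : L ∈ SigmaP (m + 1)) :
    ManyOneReducible L (J^[m + 1] emp) := level_J m hL

theorem turing_const (v : Bool) (K : DecisionProblem) :
    TuringReducible (fun _ => v) K :=
  ⟨fun _ => [], fun _ => v, 0, isPolyTimeL_of_pf (PF.const []), isPolyTime_of_pf2 (PF.const v),
    fun _ => rfl⟩

theorem turing_of_emp {L : DecisionProblem} (h : TuringReducible L emp) (K : DecisionProblem) :
    TuringReducible L K := by
  obtain ⟨q, d, p, hq, hd, hL⟩ := h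
  have e : ∀ x n, oracleAnswers q emp x n = List.replicate n false := by
    intro x n
    induction n with
    | zero => rfl
    | succ n ih => rw [oracleAnswers, ih, List.replicate_succ']; rfl
  refine ⟨fun _ => [], fun u => d (u.1, List.replicate (p.eval u.1.length) false), 0,
    isPolyTimeL_of_pf (PF.const []), isPolyTime_of_pf2 ?_, fun x => ?_⟩
  · exact (pf_of_isPolyTime2 hd).comp (PF.pair PF.fst
      (PF.replicate (pf_eval (PF.length PF.fst) p) (PF.const false)))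
  · rw [hL, e]

theorem npRel_emp {L : DecisionProblem} (h : L ∈ NPRel emp) (K : DecisionProblem) :
    L ∈ NPRel K := by
  obtain ⟨p, M, hM, hL⟩ := h
  exact ⟨p, M, turing_of_emp hM K, hL⟩

theorem sigma_sub_rel {m : ℕ} (K : DecisionProblem) : ∀ {L : DecisionProblem},
    L ∈ SigmaP (m + 1) → L ∈ SigmaRel (m + 1) K := by
  induction m with
  | zero => intro L hL; exact npRel_emp hL K
  | succ m ih =>
    intro L hL
    obtain ⟨M, hM, hL⟩ := hL
    exact ⟨M, ih hM, hL⟩

/-- the levels of the hierarchy relative to a language in `NP` -/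
theorem rel_sub_sigma {K : DecisionProblem} (hK : K ∈ NP) (m : ℕ) : ∀ {L : DecisionProblem},
    L ∈ SigmaRel (m + 1) K → L ∈ SigmaP (m + 2) := by
  have h0 : K ∈ SigmaP 1 := np_sub_rel hK _
  induction m with
  | zero => intro L hL; exact ⟨K, h0, hL⟩
  | succ m ih =>
    intro L hL
    obtain ⟨M, hM, hL⟩ := hL
    exact ⟨M, ih hM, hL⟩

theorem sigma_mono {m : ℕ} {L : DecisionProblem} (hL : L ∈ SigmaP (m + 1)) : L ∈ SigmaP (m + 2) := by
  refine ⟨L, hL, ?_⟩
  rw [mem_npRel]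
  refine ⟨0, fun y => L (uP y).1, turing_of_manyOne ⟨fun y => (uP y).1,
    isPolyTime_of_pf (PF.fst' (pf_uP PF.id)), fun _ => rfl⟩, fun x => ?_⟩
  simp only [uP_eP]
  constructor
  · intro h; exact ⟨[], by simp, h⟩
  · rintro ⟨_, _, h⟩; exact h

theorem J_notin {m : ℕ} (h : SigmaP (m + 1) ≠ SigmaP (m + 2)) : J^[m + 2] emp ∉ SigmaP (m + 1) := by
  intro hJ
  apply h
  ext L
  exact ⟨fun hL => sigma_mono hL, fun hL => level_closed _ (sigma_J hL) hJ⟩

theorem high_aux {ℓ : ℕ → ℕ} (hℓ : PF ℓ) (h : ∀ n, SigmaP (ℓ n + 1) ≠ SigmaP (ℓ n + 2)) :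
    ∃ K' : ℕ → DecisionProblem,
      (∀ s, K' s ∈ NP ∧ Hard (K' s) ∧ ∀ n, SigmaRel (ℓ n + 1) (K' s) ⊂ SigmaP (ℓ n + 2)) ∧
      ∀ s t, s ≠ t → IsCompleteFor NP (join (K' s) (K' t)) := by
  have hU : Hard UL := fun L hL => UL_hard hL.1
  obtain ⟨E⟩ := exists_ev_np UL_np
  obtain ⟨K', h1, h2, h3⟩ := splitS hℓ E hU (evJ hℓ) fun n => J_notin (h n)
  refine ⟨K', fun s => ?_, fun s t hst => ⟨np_of_red UL_np (join_red (h1 s).2 (h1 t).2),
      fun L hL => manyOne_trans (UL_hard hL) (h2 s t hst)⟩⟩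
  have hs : K' s ∈ NP := np_of_red UL_np (h1 s).2
  exact ⟨hs, (h1 s).1, fun n => ⟨fun L hL => rel_sub_sigma hs _ hL, fun hsub =>
    h3 s n (hsub (J_sigma (ℓ n + 1)))⟩⟩

/-- if two levels of the polynomial hierarchy are different, then some languages in `NP` are hard
for `NP ∩ coNP` and not high at this level -/
theorem high2 {m : ℕ} (h : SigmaP (m + 1) ≠ SigmaP (m + 2)) : ∃ K' : ℕ → DecisionProblem,
    (∀ s, K' s ∈ NP ∧ Hard (K' s) ∧ SigmaRel (m + 1) (K' s) ⊂ SigmaP (m + 2)) ∧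
    ∀ s t, s ≠ t → IsCompleteFor NP (join (K' s) (K' t)) := by
  obtain ⟨K', h1, h2⟩ := high_aux (ℓ := fun _ => m) (PF.const m) fun _ => h
  exact ⟨K', fun s => ⟨(h1 s).1, (h1 s).2.1, (h1 s).2.2 0⟩, h2⟩

/-- if the polynomial hierarchy is infinite, then some languages in `NP` are hard for `NP ∩ coNP`
and not high at any level -/
theorem high3 (h : ∀ m, SigmaP (m + 1) ≠ SigmaP (m + 2)) : ∃ K' : ℕ → DecisionProblem,
    (∀ s, K' s ∈ NP ∧ Hard (K' s) ∧ ∀ m, SigmaRel (m + 1) (K' s) ⊂ SigmaP (m + 2)) ∧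
    ∀ s t, s ≠ t → IsCompleteFor NP (join (K' s) (K' t)) := by
  obtain ⟨K', h1, h2⟩ := high_aux pf_fstN fun n => h _
  refine ⟨K', fun s => ⟨(h1 s).1, (h1 s).2.1, fun m => ?_⟩, h2⟩
  have := (h1 s).2.2 (Nat.pair m 0)
  rwa [Nat.unpair_pair] at this

/-- the first level is `NP` -/
theorem sigma_one : SigmaP 1 = NP := by
  ext L
  exact ⟨fun h => npRel_sub empty_mem h, fun h => np_sub_rel h _⟩

/-- members of the levels have evaluations -/
theorem ev_of_sigma {m : ℕ} {L : DecisionProblem} (h : L ∈ SigmaP (m + 2)) :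
    Nonempty (Ev fun _ => L) :=
  ev_of_turing (B := J^[m + 2] emp)
    (A := L) (evJ (ℓ := fun _ => m) (PF.const m)) (turing_of_manyOne (sigma_J h))

/-- the levels are the intersections of the levels relative to hard languages -/
theorem high4 (m : ℕ) {K₀ : DecisionProblem} (h₀ : K₀ ∈ NP) (hh : Hard K₀) (L : DecisionProblem) :
    L ∈ SigmaP (m + 1) ↔ ∀ K : DecisionProblem, Hard K → ManyOneReducible K K₀ →
      L ∈ SigmaRel (m + 1) K := by
  constructor
  · intro hL K _ _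
    exact sigma_sub_rel K hL
  · intro h
    by_contra hn
    have h1 : L ∈ SigmaRel (m + 1) K₀ :=
      h K₀ hh ⟨id, isPolyTime_of_pf PF.id, fun _ => rfl⟩
    obtain ⟨EL⟩ := ev_of_sigma (rel_sub_sigma h₀ m h1)
    obtain ⟨E⟩ := exists_ev_np h₀
    obtain ⟨K', h2, _, h3⟩ := splitS (ℓ := fun _ => m) (PF.const m) E hh (A := fun _ => L) EL
      fun _ => hn
    exact h3 0 0 (h _ (h2 0).1 (h2 0).2)

theorem high5 (m : ℕ) : SigmaP (m + 1) ≠ SigmaP (m + 2) ↔
    ∃ K ∈ NP, Hard K ∧ SigmaRel (m + 1) K ≠ SigmaP (m + 2) := by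
  constructor
  · intro h
    obtain ⟨K', h1, _⟩ := high2 h
    exact ⟨K' 0, (h1 0).1, (h1 0).2.1, (h1 0).2.2.ne⟩
  · rintro ⟨K, hK, _, hne⟩ he
    apply hne
    ext L
    exact ⟨fun h => rel_sub_sigma hK m h, fun h => sigma_sub_rel K (he ▸ h)⟩

theorem high6 : (∀ m, SigmaP (m + 1) ≠ SigmaP (m + 2)) ↔
    ∃ K ∈ NP, Hard K ∧ ∀ m, SigmaRel (m + 1) K ≠ SigmaP (m + 2) := by
  constructor
  · intro h
    obtain ⟨K', h1, _⟩ := high3 h
    exact ⟨K' 0, (h1 0).1, (h1 0).2.1, fun m => ((h1 0).2.2 m).ne⟩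
  · rintro ⟨K, hK, hh, hne⟩ m
    exact (high5 m).2 ⟨K, hK, hh, hne m⟩

end Pool.Agent.T9h21.UB
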