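import Pool.Agent.T9h21.UB.Ev

/-!
# Pairs of verifiers with a reduction
-/

set_option autoImplicit false

namespace Pool.Agent.T9h21.UB

open Turing Computability N68a2faeb N793a5b8e
open Pool.Agent.H583R2
open Pool.Agent.T9h49.SC

/-- two verifiers, a common exponent, and a reduction -/
abbrev Jx := Code × Code × ℕ × Code

/-- the index number `e` -/
def jx (e : ℕ) : Jx := decP decCode (decP decCode (decP decN decCode)) (parse (str e))

theorem exists_jx (i : Jx) : ∃ e, jx e = i := by
  obtain ⟨e, _, he⟩ := exists_index (enc i) 0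
  refine ⟨e, ?_⟩
  unfold jx
  rw [he]
  exact decP_enc decCode_enc (decP_enc decCode_enc (decP_enc decN_enc decCode_enc)) i

/-- the exponent -/
def ke (e : ℕ) : ℕ := (jx e).2.2.1

/-- the reduction -/
def phi (e : ℕ) (x : List Bool) : List Bool := uL ((U (jx e).2.2.2 (eL x) (tm (ke e) x)).getD [])

/-- the reduction, capped -/
def phiC (e : ℕ) (x : List Bool) (N : ℕ) : List Bool :=
  uL ((U (jx e).2.2.2 (eL x) (tmC (ke e) x N)).getD [])

theorem phiC_eq {e : ℕ} {x : List Bool} {N : ℕ} (h : tm (ke e) x ≤ N) : phiC e x N = phi e x := by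
  unfold phiC phi tmC
  rw [min_eq_left h]

/-- the verifiers accept the language which the reduction reduces to `K`, and its complement -/
def Good (K : DecisionProblem) (e : ℕ) : Prop := ∀ x,
  (Acc (jx e).1 (ke e) x ↔ K (phi e x) = true) ∧
    (Acc (jx e).2.1 (ke e) x ↔ K (phi e x) = false)

/-- every language in `NP ∩ coNP` that is reducible to `K` has an index -/
theorem exists_good {K L : DecisionProblem} (hL : L ∈ NP ∩ coNP) (hLK : ManyOneReducible L K) :
    ∃ e, Good K e ∧ ∀ x, L x = K (phi e x) := by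
  obtain ⟨c1, k1, h1⟩ := np_nf hL.1
  obtain ⟨c2, k2, h2⟩ := np_nf (L := Lᶜ) hL.2
  obtain ⟨f, hf, hfL⟩ := hLK
  obtain ⟨d, k3, h3⟩ := code_of_isPolyTime hf
  set k := max (max k1 k2) k3 with hk
  obtain ⟨e, he⟩ := exists_jx (c1, c2, k, d)
  have hke : ke e = k := by unfold ke; rw [he]
  have hphi : ∀ x, phi e x = f x := by
    intro x
    unfold phi
    rw [hke, he]
    have h4 := h3 x (tm k x) (Nat.pow_le_pow_right (by omega) (le_max_right _ _))
    dsimp only
    rw [h4, Option.getD_some, uL_eL]
  refine ⟨e, fun x => ?_, fun x => ?_⟩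
  · rw [hphi, ← hfL, hke, he]
    refine ⟨(h1 k ((le_max_left _ _).trans (le_max_left _ _)) x).symm, ?_⟩
    have h5 : Lᶜ x = true ↔ L x = false := by simp
    rw [← h5]
    exact (h2 k ((le_max_right _ _).trans (le_max_left _ _)) x).symm
  · rw [hphi]; exact hfL x

section
variable {K : DecisionProblem} (E : Ev fun _ => K)

/-- a failure is seen with the budget `N` -/
def badN (e : ℕ) (x : List Bool) (N : ℕ) : Bool :=
  enough (ke e) x N && (match E.ev 0 (phiC e x N) N with
    | none => false
    | some b => !((accN (jx e).1 (ke e) x N == b) && (accN (jx e).2.1 (ke e) x N == !b)))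

/-- a failure is found with the budget `N` -/
def found (e N : ℕ) : Bool := (List.range N).any (fun i => badN E e (str i) N)

theorem badN_iff {e : ℕ} {x : List Bool} {N : ℕ} (h : enough (ke e) x N = true)
    (hev : E.ev 0 (phi e x) N = some (K (phi e x))) : badN E e x N = true ↔
    ¬ ((Acc (jx e).1 (ke e) x ↔ K (phi e x) = true) ∧
      (Acc (jx e).2.1 (ke e) x ↔ K (phi e x) = false)) := by
  unfold badN
  rw [phiC_eq (tm_le_of_enough h), hev, h]
  have h1 := accN_iff (c := (jx e).1) h
  have h2 := accN_iff (c := (jx e).2.1) h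
  dsimp only
  rw [← h1, ← h2]
  cases K (phi e x) <;> cases accN (jx e).1 (ke e) x N <;>
    cases accN (jx e).2.1 (ke e) x N <;> simp

theorem not_good_of_found {e N : ℕ} (h : found E e N = true) : ¬ Good K e := by
  unfold found at h
  rw [List.any_eq_true] at h
  obtain ⟨i, _, hi⟩ := h
  intro hg
  have h1 := hg (str i)
  have h2 : enough (ke e) (str i) N = true := by
    unfold badN at hi
    rw [Bool.and_eq_true] at hi
    exact hi.1
  rcases h3 : E.ev 0 (phi e (str i)) N with _ | b
  · unfold badN at hi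
    rw [phiC_eq (tm_le_of_enough h2), h3] at hi
    simp at hi
  · have h4 := E.sound _ _ _ _ h3
    rw [← h4] at h3
    exact (badN_iff E h2 h3).1 hi h1

theorem found_of_not_good {e : ℕ} (h : ¬ Good K e) : ∃ N₀, ∀ N, N₀ ≤ N → found E e N = true := by
  unfold Good at h
  obtain ⟨x, hx⟩ := not_forall.1 h
  obtain ⟨N₁, hN₁⟩ := E.total 0 (phi e x)
  refine ⟨max N₁ (max (idx x + 1) (2 ^ (tm (ke e) x + 1))), fun N hN => ?_⟩
  unfold found
  rw [List.any_eq_true]
  refine ⟨idx x, List.mem_range.2 ?_, ?_⟩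
  · have := (le_max_left (idx x + 1) (2 ^ (tm (ke e) x + 1))).trans
      ((le_max_right N₁ _).trans hN)
    omega
  · rw [str_idx]
    have h2 : enough (ke e) x N = true := enough_iff.2
      ((le_max_right (idx x + 1) (2 ^ (tm (ke e) x + 1))).trans ((le_max_right N₁ _).trans hN))
    rw [badN_iff E h2 (hN₁ N ((le_max_left _ _).trans hN))]
    exact hx

end

/-! ### polynomial time -/

section
variable {α : Type} [TEnc α]

theorem pf_jx {e : α → ℕ} (he : PF e) : PF (fun a => jx (e a)) := by
  have h : PF (fun t : Tr => decP decCode (decP decCode (decP decN decCode)) t) :=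
    PF.decP (d := decCode) (d' := decP decCode (decP decN decCode)) (PF.decCode PF.id)
      (PF.decP (d := decCode) (d' := decP decN decCode) (PF.decCode PF.id)
        (PF.decP (d := decN) (d' := decCode) (PF.decN PF.id) (PF.decCode PF.id) PF.id) PF.id) PF.id
  exact h.comp (PF.parse (PF.str he))

theorem pf_ke {e : α → ℕ} (he : PF e) : PF (fun a => ke (e a)) :=
  PF.fst' (PF.snd' (PF.snd' (pf_jx he)))

theorem pf_phiC {e N : α → ℕ} {x : α → List Bool} (he : PF e) (hx : PF x) (hN : PF N) :
    PF (fun a => phiC (e a) (x a) (N a)) := by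
  unfold phiC
  exact pf_uL (PF.getD (pf_U (PF.snd' (PF.snd' (PF.snd' (pf_jx he)))) (pf_eL hx)
    (pf_tmC (pf_ke he) hx hN)) (PF.const []))

theorem pf_badN {K : DecisionProblem} (E : Ev fun _ => K) {e N : α → ℕ} {x : α → List Bool}
    (he : PF e) (hx : PF x) (hN : PF N) : PF (fun a => badN E (e a) (x a) (N a)) := by
  have h1 : PF (fun p : α × Bool => accN (jx (e p.1)).1 (ke (e p.1)) (x p.1) (N p.1)) :=
    pf_accN (PF.fst' (pf_jx (he.comp PF.fst))) (pf_ke (he.comp PF.fst)) (hx.comp PF.fst)
      (hN.comp PF.fst)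
  have h2 : PF (fun p : α × Bool => accN (jx (e p.1)).2.1 (ke (e p.1)) (x p.1) (N p.1)) :=
    pf_accN (PF.fst' (PF.snd' (pf_jx (he.comp PF.fst)))) (pf_ke (he.comp PF.fst))
      (hx.comp PF.fst) (hN.comp PF.fst)
  refine (PF.and (pf_enough (pf_ke he) hx hN)
    (PF.optCase (l := fun a => E.ev 0 (phiC (e a) (x a) (N a)) (N a)) (g := fun _ => false)
      (h := fun a b => !((accN (jx (e a)).1 (ke (e a)) (x a) (N a) == b) &&
        (accN (jx (e a)).2.1 (ke (e a)) (x a) (N a) == !b)))
      (E.pf (PF.const 0) (pf_phiC he hx hN) hN) (PF.const false)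
      (PF.not (PF.and (PF.beqBool h1 PF.snd) (PF.beqBool h2 (PF.not PF.snd)))))).congr
      fun a => ?_
  unfold badN
  rcases E.ev 0 (phiC (e a) (x a) (N a)) (N a) with _ | b <;> rfl

theorem pf_found {K : DecisionProblem} (E : Ev fun _ => K) {e N : α → ℕ} (he : PF e)
    (hN : PF N) : PF (fun a => found E (e a) (N a)) := by
  unfold found
  exact PF.any (f := fun a i => badN E (e a) (str i) (N a)) (PF.range hN)
    (pf_badN E (he.comp PF.fst) (PF.str PF.snd) (hN.comp PF.fst))

end

end Pool.Agent.T9h21.UB
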