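import Pool.Agent.T9h21.UB.Red

/-!
# The nondeterministic jump of a language, with a budget
-/

set_option autoImplicit false

namespace Pool.Agent.T9h21.UB

open Turing Computability N68a2faeb N793a5b8e
open Pool.Agent.H583R2
open Pool.Agent.T9h49.SC hiding found act stp st upd badN RK RN KK NN Good

/-! ### Turing reductions with capped clocks -/

/-- the run of the reduction number `r` on `x`, all clocks capped by `n`, partial oracle -/
def runC (r n : ℕ) (o : List Bool → Option Bool) (x : List Bool) : Option Bool :=
  ((ask (qry (tx r).1 (tcC r x n) x) o)^[tqC r x n] (some [])).bind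
    (fun a => some (dcs (tx r).2.1 (tcC r x n) x a))

/-- the same, total oracle -/
def valC (r n : ℕ) (B : DecisionProblem) (x : List Bool) : Bool :=
  dcs (tx r).2.1 (tcC r x n) x (answers (qry (tx r).1 (tcC r x n) x) B (tqC r x n))

theorem runC_sound {r n : ℕ} {o : List Bool → Option Bool} {B : DecisionProblem}
    (ho : ∀ z c, o z = some c → B z = c) {x : List Bool} {b : Bool}
    (h : runC r n o x = some b) : valC r n B x = b := by
  unfold runC at h
  rcases h2 : (ask (qry (tx r).1 (tcC r x n) x) o)^[tqC r x n] (some []) with _ | a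
  · rw [h2] at h; simp at h
  · rw [h2] at h
    have h3 := ask_sound ho _ a h2
    unfold valC
    rw [← h3]
    exact Option.some.inj h

theorem runC_total {r n : ℕ} {o : List Bool → Option Bool} {B : DecisionProblem}
    (ho : ∀ z : List Bool, z.length ≤ n → o z = some (B z)) (x : List Bool) :
    runC r n o x = some (valC r n B x) := by
  unfold runC
  rw [ask_total (B := B)]
  · rfl
  · intro j _
    apply ho
    unfold qry
    rw [List.length_take]
    exact (min_le_left _ _).trans (min_le_right _ _)

theorem valC_eq {r n : ℕ} {B : DecisionProblem} {x : List Bool} (h1 : tq r x ≤ n)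
    (h2 : tc r x ≤ n) : valC r n B x = ΩT r B x := by
  unfold valC tcC tqC
  rw [tmC_eq h1, tmC_eq h2]
  rfl

section
variable {α : Type} [TEnc α]

theorem pf_runC {o : α → List Bool → Option Bool} {r n : α → ℕ} {x : α → List Bool}
    (ho : PF (fun p : α × List Bool => o p.1 p.2)) (hr : PF r) (hn : PF n) (hx : PF x) :
    PF (fun a => runC (r a) (n a) (o a) (x a)) := by
  have hq0 : PF (fun a => (tx (r a)).2.2.1) := PF.fst' (PF.snd' (PF.snd' (pf_tx hr)))
  have hk0 : PF (fun a => (tx (r a)).2.2.2) := PF.snd' (PF.snd' (PF.snd' (pf_tx hr)))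
  have hk1 : PF (fun p : α × List Bool => tmC (tx (r p.1)).2.2.2 (x p.1) (n p.1)) :=
    pf_tmC (hk0.comp PF.fst) (hx.comp PF.fst) (hn.comp PF.fst)
  have h1 : PF (fun a => (ask (qry (tx (r a)).1 (tmC (tx (r a)).2.2.2 (x a) (n a)) (x a))
      (o a))^[tmC (tx (r a)).2.2.1 (x a) (n a)] (some [])) :=
    pf_run (q := fun a => qry (tx (r a)).1 (tmC (tx (r a)).2.2.2 (x a) (n a)) (x a))
      (pf_qry (PF.fst' (pf_tx (hr.comp PF.fst))) hk1 (hx.comp PF.fst) PF.snd) ho
      (pf_tmC hq0 hx hn)
  have h2 : PF (fun p : α × List Bool => some (dcs (tx (r p.1)).2.1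
      (tmC (tx (r p.1)).2.2.2 (x p.1) (n p.1)) (x p.1) p.2)) :=
    PF.mkSome (pf_dcs (PF.fst' (PF.snd' (pf_tx (hr.comp PF.fst)))) hk1 (hx.comp PF.fst) PF.snd)
  exact pf_bind (o := fun a => (ask (qry (tx (r a)).1 (tmC (tx (r a)).2.2.2 (x a) (n a)) (x a))
    (o a))^[tmC (tx (r a)).2.2.1 (x a) (n a)] (some [])) h1
    (f := fun a w => some (dcs (tx (r a)).2.1 (tmC (tx (r a)).2.2.2 (x a) (n a)) (x a) w)) h2

end

/-! ### the jump -/

/-- the bound for the certificates of an instance -/
def lJ (z : List Bool) : ℕ := min (uP (iX z)).2.length z.length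

/-- the input of an instance -/
def xJ (z : List Bool) : List Bool := (uP (iX z)).1

theorem lJ_le (z : List Bool) : lJ z ≤ z.length := min_le_right _ _

open Classical in
/-- the universal language for the languages that are nondeterministically reducible to `B` -/
noncomputable def J (B : DecisionProblem) : DecisionProblem := fun z =>
  decide (∃ w : List Bool, w.length ≤ lJ z ∧
    valC (iE z) z.length B (eP (xJ z) w) = true)

theorem J_iff {B : DecisionProblem} {z : List Bool} : J B z = true ↔
    ∃ w : List Bool, w.length ≤ lJ z ∧ valC (iE z) z.length B (eP (xJ z) w) = true := by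
  simp [J]

/-- all certificates of length at most `n` are among the first `N` strings -/
def enoughL (n N : ℕ) : Bool := decide (min (2 ^ (n + 1)) (N + 1) ≤ N)

theorem enoughL_iff {n N : ℕ} : enoughL n N = true ↔ 2 ^ (n + 1) ≤ N := by
  unfold enoughL
  rw [decide_eq_true_eq]
  omega

/-- the jump with a budget -/
def JB (o : List Bool → Option Bool) (z : List Bool) (N : ℕ) : Option Bool :=
  if enoughL z.length N then
    (if (List.range N).any (fun j => decide ((str j).length ≤ lJ z) &&
        (runC (iE z) z.length o (eP (xJ z) (str j))).getD false) then some true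
    else if (List.range N).all (fun j => decide (lJ z < (str j).length) ||
        !((runC (iE z) z.length o (eP (xJ z) (str j))).getD true)) then some false else none)
  else none

theorem JB_sound {o : List Bool → Option Bool} {B : DecisionProblem}
    (ho : ∀ z c, o z = some c → B z = c) {z : List Bool} {N : ℕ} {b : Bool}
    (h : JB o z N = some b) : J B z = b := by
  unfold JB at h
  split_ifs at h with h1 h2 h3
  · rw [List.any_eq_true] at h2
    obtain ⟨j, _, hj⟩ := h2
    rw [Bool.and_eq_true, decide_eq_true_eq] at hj
    rw [← Option.some.inj h, J_iff]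
    refine ⟨str j, hj.1, ?_⟩
    rcases h4 : runC (iE z) z.length o (eP (xJ z) (str j)) with _ | c
    · rw [h4] at hj; simp at hj
    · rw [runC_sound ho h4]
      rw [h4] at hj
      simpa using hj.2
  · rw [List.all_eq_true] at h3
    rw [← Option.some.inj h, ← Bool.not_eq_true, J_iff]
    rintro ⟨w, hw, hv⟩
    rw [enoughL_iff] at h1
    have h5 : idx w < N := by
      have := idx_lt w
      have h6 : 2 ^ (w.length + 1) ≤ 2 ^ (z.length + 1) :=
        Nat.pow_le_pow_right (by norm_num) (by have := lJ_le z; omega)
      omega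
    have h7 := h3 (idx w) (List.mem_range.2 h5)
    rw [str_idx, Bool.or_eq_true, decide_eq_true_eq] at h7
    rcases h7 with h7 | h7
    · omega
    · rcases h4 : runC (iE z) z.length o (eP (xJ z) w) with _ | c
      · rw [h4] at h7; simp at h7
      · rw [h4] at h7
        rw [runC_sound ho h4] at hv
        rw [hv] at h7
        simp at h7

theorem JB_total {o : List Bool → Option Bool} {B : DecisionProblem} {z : List Bool} {N : ℕ}
    (hN : 2 ^ (z.length + 1) ≤ N)
    (ho : ∀ y : List Bool, y.length ≤ z.length → o y = some (B y)) :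
    JB o z N = some (J B z) := by
  unfold JB
  rw [if_pos (enoughL_iff.2 hN)]
  have hr : ∀ x, runC (iE z) z.length o x = some (valC (iE z) z.length B x) := fun x =>
    runC_total ho x
  simp only [hr, Option.getD_some]
  split_ifs with h2 h3
  · rw [List.any_eq_true] at h2
    obtain ⟨j, _, hj⟩ := h2
    rw [Bool.and_eq_true, decide_eq_true_eq] at hj
    congr 1
    symm
    rw [J_iff]
    exact ⟨str j, hj⟩
  · rw [List.all_eq_true] at h3
    congr 1
    symm
    rw [← Bool.not_eq_true, J_iff]
    rintro ⟨w, hw, hv⟩
    have h5 : idx w < N := by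
      have := idx_lt w
      have h6 : 2 ^ (w.length + 1) ≤ 2 ^ (z.length + 1) :=
        Nat.pow_le_pow_right (by norm_num) (by have := lJ_le z; omega)
      omega
    have h7 := h3 (idx w) (List.mem_range.2 h5)
    rw [str_idx, hv] at h7
    simp at h7
    omega
  · exfalso
    apply h3
    rw [List.all_eq_true]
    intro j hj
    rw [Bool.or_eq_true, decide_eq_true_eq]
    by_contra hcon
    rw [not_or] at hcon
    apply h2
    rw [List.any_eq_true]
    refine ⟨j, hj, ?_⟩
    rw [Bool.and_eq_true, decide_eq_true_eq]
    refine ⟨by omega, ?_⟩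
    simpa using hcon.2

section
variable {α : Type} [TEnc α]

theorem pf_lJ {z : α → List Bool} (hz : PF z) : PF (fun a => lJ (z a)) :=
  PF.min (PF.length (PF.snd' (pf_uP (pf_iX hz)))) (PF.length hz)

theorem pf_xJ {z : α → List Bool} (hz : PF z) : PF (fun a => xJ (z a)) :=
  PF.fst' (pf_uP (pf_iX hz))

theorem pf_enoughL {n N : α → ℕ} (hn : PF n) (hN : PF N) :
    PF (fun a => enoughL (n a) (N a)) := by
  unfold enoughL
  exact PF.le (pf_cexp (PF.succ hn) (PF.succ hN)) hN

theorem pf_JB {o : α → List Bool → Option Bool} {N : α → ℕ} {z : α → List Bool}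
    (ho : PF (fun p : α × List Bool => o p.1 p.2)) (hz : PF z) (hN : PF N) :
    PF (fun a => JB (o a) (z a) (N a)) := by
  have hr : PF (fun p : α × ℕ => runC (iE (z p.1)) (z p.1).length (o p.1)
      (eP (xJ (z p.1)) (str p.2))) :=
    pf_runC (o := fun p : α × ℕ => o p.1) (ho.comp (PF.pair (PF.fst' PF.fst) PF.snd))
      (pf_iE (hz.comp PF.fst)) (PF.length (hz.comp PF.fst))
      (pf_eP (pf_xJ (hz.comp PF.fst)) (PF.str PF.snd))
  have h1 : PF (fun p : α × ℕ => decide ((str p.2).length ≤ lJ (z p.1)) &&
      (runC (iE (z p.1)) (z p.1).length (o p.1) (eP (xJ (z p.1)) (str p.2))).getD false) :=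
    PF.and (PF.le (PF.length (PF.str PF.snd)) (pf_lJ (hz.comp PF.fst)))
      (PF.getD hr (PF.const false))
  have h2 : PF (fun p : α × ℕ => decide (lJ (z p.1) < (str p.2).length) ||
      !((runC (iE (z p.1)) (z p.1).length (o p.1) (eP (xJ (z p.1)) (str p.2))).getD true)) :=
    PF.or (PF.lt (pf_lJ (hz.comp PF.fst)) (PF.length (PF.str PF.snd)))
      (PF.not (PF.getD hr (PF.const true)))
  have h3 : PF (fun a => (List.range (N a)).any (fun j =>
      decide ((str j).length ≤ lJ (z a)) &&
        (runC (iE (z a)) (z a).length (o a) (eP (xJ (z a)) (str j))).getD false)) :=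
    PF.any (f := fun a j => decide ((str j).length ≤ lJ (z a)) &&
      (runC (iE (z a)) (z a).length (o a) (eP (xJ (z a)) (str j))).getD false) (PF.range hN) h1
  have h4 : PF (fun a => (List.range (N a)).all (fun j =>
      decide (lJ (z a) < (str j).length) ||
        !((runC (iE (z a)) (z a).length (o a) (eP (xJ (z a)) (str j))).getD true))) :=
    PF.all (f := fun a j => decide (lJ (z a) < (str j).length) ||
      !((runC (iE (z a)) (z a).length (o a) (eP (xJ (z a)) (str j))).getD true))
      (PF.range hN) h2
  exact PF.ite (pf_enoughL (PF.length hz) hN) (PF.ite h3 (PF.const _)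
    (PF.ite h4 (PF.const _) (PF.const _))) (PF.const none)

end

/-! ### tables -/

/-- tables of partial languages -/
abbrev Tb := List (List Bool × Option Bool)

/-- the value in a table -/
def look (V : Tb) (z : List Bool) : Option Bool := (V.find? (fun p => p.1 == z)).bind (fun p => p.2)

/-- the table of a partial language on the first `N` strings -/
def tab (v : List Bool → Option Bool) (N : ℕ) : Tb :=
  (List.range N).map (fun j => (str j, v (str j)))

theorem look_tab_of_lt {v : List Bool → Option Bool} {N : ℕ} {z : List Bool} (h : idx z < N) :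
    look (tab v N) z = v z := by
  unfold look tab
  have h1 : ((List.range N).map (fun j => (str j, v (str j)))).find? (fun p => p.1 == z) =
      some (z, v z) := by
    rw [List.find?_map]
    have h2 : (List.range N).find? ((fun p : List Bool × Option Bool => p.1 == z) ∘
        (fun j => (str j, v (str j)))) = some (idx z) := by
      rw [List.find?_range_eq_some]
      refine ⟨?_, List.mem_range.2 h, ?_⟩
      · simp [str_idx]
      · intro j hj
        simp only [Function.comp_apply, Bool.not_eq_true', beq_eq_false_iff_ne, ne_eq]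
        intro hc
        have : idx (str j) = idx z := by rw [hc]
        rw [idx_str] at this
        omega
    rw [h2]
    simp [str_idx]
  rw [h1]
  rfl

theorem look_tab_some {v : List Bool → Option Bool} {N : ℕ} {z : List Bool} {b : Bool}
    (h : look (tab v N) z = some b) : v z = some b := by
  unfold look at h
  rcases h1 : (tab v N).find? (fun p => p.1 == z) with _ | p
  · rw [h1] at h; simp at h
  · have h2 := List.find?_some h1
    have h3 := List.mem_of_find?_eq_some h1
    unfold tab at h3
    rw [List.mem_map] at h3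
    obtain ⟨j, _, hj⟩ := h3
    rw [h1] at h
    simp only [Option.bind_some] at h
    rw [beq_iff_eq] at h2
    rw [← hj] at h h2
    dsimp only at h h2
    rw [← h2]
    exact h

/-- the tables of the iterated jumps -/
def VT (o : List Bool → Option Bool) (N m : ℕ) : Tb :=
  (fun V => tab (fun z => JB (look V) z N) N)^[m] (tab o N)

theorem VT_succ (o : List Bool → Option Bool) (N m : ℕ) :
    VT o N (m + 1) = tab (fun z => JB (look (VT o N m)) z N) N := by
  unfold VT
  rw [Function.iterate_succ_apply']

theorem VT_sound {o : List Bool → Option Bool} {B : DecisionProblem}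
    (ho : ∀ z c, o z = some c → B z = c) (N m : ℕ) :
    ∀ z c, look (VT o N m) z = some c → J^[m] B z = c := by
  induction m with
  | zero => intro z c h; exact ho z c (look_tab_some h)
  | succ m ih =>
    intro z c h
    rw [VT_succ] at h
    rw [Function.iterate_succ_apply']
    exact JB_sound ih (look_tab_some h)

theorem VT_total (B : DecisionProblem) (L N : ℕ) (hN : 2 ^ (L + 1) ≤ N)
    {o : List Bool → Option Bool} (ho : ∀ z : List Bool, z.length ≤ L → o z = some (B z)) (m : ℕ) :
    ∀ z : List Bool, z.length ≤ L → look (VT o N m) z = some (J^[m] B z) := by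
  have hidx : ∀ z : List Bool, z.length ≤ L → idx z < N := by
    intro z hz
    have := idx_lt z
    have h6 : 2 ^ (z.length + 1) ≤ 2 ^ (L + 1) := Nat.pow_le_pow_right (by norm_num) (by omega)
    omega
  induction m with
  | zero =>
    intro z hz
    change look (tab o N) z = _
    rw [look_tab_of_lt (hidx z hz), ho z hz]
    rfl
  | succ m ih =>
    intro z hz
    rw [VT_succ, look_tab_of_lt (hidx z hz), Function.iterate_succ_apply']
    refine JB_total (le_trans (Nat.pow_le_pow_right (by norm_num) (by omega)) hN) fun y hy => ?_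
    exact ih y (hy.trans hz)

section
variable {α : Type} [TEnc α]

theorem sz_option_bool (b : Option Bool) : sz b ≤ 5 := by
  rcases b with _ | b
  · rw [sz_none]; omega
  · rw [sz_some]
    have := sz_bool b
    omega

theorem str_len (j : ℕ) : (str j).length ≤ j := by
  have h1 := le_idx (str j)
  rw [idx_str] at h1
  have h2 := Nat.lt_two_pow_self (n := (str j).length)
  omega

theorem sz_tab (v : List Bool → Option Bool) (N : ℕ) : sz (tab v N) ≤ N * (4 * N + 8) + 1 := by
  refine (sz_list_le _ (4 * N + 7) fun p hp => ?_).trans ?_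
  · unfold tab at hp
    rw [List.mem_map] at hp
    obtain ⟨j, hj, rfl⟩ := hp
    rw [List.mem_range] at hj
    rw [sz_pair]
    have h1 := sz_str (str j)
    have h2 := str_len j
    have h3 := sz_option_bool (v (str j))
    omega
  · unfold tab
    rw [List.length_map, List.length_range]

theorem sz_VT (o : List Bool → Option Bool) (N m : ℕ) : sz (VT o N m) ≤ N * (4 * N + 8) + 1 := by
  cases m with
  | zero => exact sz_tab _ _
  | succ m => rw [VT_succ]; exact sz_tab _ _

theorem pf_look {V : α → Tb} {z : α → List Bool} (hV : PF V) (hz : PF z) :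
    PF (fun a => look (V a) (z a)) := by
  have h1 : PF (fun a => (V a).find? (fun p => p.1 == z a)) :=
    PF.find (f := fun a p => p.1 == z a) hV (PF.beqStr (PF.fst' PF.snd) (hz.comp PF.fst))
  exact pf_bind (o := fun a => (V a).find? (fun p => p.1 == z a)) h1
    (f := fun _ p => p.2) (PF.snd' PF.snd)

theorem pf_tab {v : α → List Bool → Option Bool} {N : α → ℕ}
    (hv : PF (fun p : α × List Bool => v p.1 p.2)) (hN : PF N) :
    PF (fun a => tab (v a) (N a)) := by
  unfold tab
  exact PF.map (f := fun a j => (str j, v a (str j))) (PF.range hN)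
    (PF.pair (PF.str PF.snd) (hv.comp (PF.pair PF.fst (PF.str PF.snd))))

theorem pf_VT {o : α → List Bool → Option Bool} {N m : α → ℕ}
    (ho : PF (fun p : α × List Bool => o p.1 p.2)) (hN : PF N) (hm : PF m) :
    PF (fun a => VT (o a) (N a) (m a)) := by
  unfold VT
  refine PF.iterate (n := m) (s := fun a => tab (o a) (N a))
    (f := fun a V => tab (fun z => JB (look V) z (N a)) (N a)) hm (pf_tab ho hN) ?_
    (b := fun a => sz (N a) * (4 * sz (N a) + 8) + 1) ?_ ?_
  · exact pf_tab (v := fun (p : α × Tb) z => JB (look p.2) z (N p.1))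
      (pf_JB (o := fun p : (α × Tb) × List Bool => look p.1.2)
        (pf_look (PF.snd' (PF.fst' PF.fst)) PF.snd) PF.snd (hN.comp (PF.fst' PF.fst)))
      (hN.comp PF.fst)
  · exact (hN.size.mul (((PB.const 4).mul hN.size).add (PB.const 8))).add (PB.const 1)
  · intro a j _
    have h1 := sz_VT (o a) (N a) j
    unfold VT at h1
    refine h1.trans ?_
    have h2 : N a ≤ sz (N a) := by rw [sz_nat]; omega
    have h3 : N a * (4 * N a + 8) ≤ sz (N a) * (4 * sz (N a) + 8) :=
      Nat.mul_le_mul h2 (by omega)
    omega

end

end Pool.Agent.T9h21.UB
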