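import Pool.Agent.T9h21.UB.Jump
import Pool.Agent.T9h21.UB.Defs2

/-!
# Levels of the relativised polynomial hierarchy and iterated jumps
-/

set_option autoImplicit false

namespace Pool.Agent.T9h21.UB

open Turing Computability N68a2faeb N793a5b8e
open Pool.Agent.H583R2
open Pool.Agent.T9h49.SC hiding found act stp st upd badN RK RN KK NN Good

theorem bE (x w : List Bool) : N487b59b3.bitEncode (x, w) = eP x w := encode_pair x w

theorem mem_npRel {L K : DecisionProblem} : L ∈ NPRel K ↔
    ∃ (p : Polynomial ℕ) (M : DecisionProblem), TuringReducible M K ∧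
      ∀ x, L x = true ↔ ∃ w : List Bool, w.length ≤ p.eval x.length ∧ M (eP x w) = true := by
  unfold NPRel
  simp only [Set.mem_ofPred_eq, bE]

/-! ### polynomial bounds -/

/-- a polynomial bound for a function of polynomial size -/
theorem poly_of_pb {b : List Bool → ℕ} (hb : PB b) :
    ∃ q : Polynomial ℕ, ∀ x, b x ≤ q.eval x.length := by
  obtain ⟨k, hk⟩ := hb
  refine ⟨(4 * Polynomial.X + 3) ^ k, fun x => (hk x).trans ?_⟩
  have e : ((4 * Polynomial.X + 3 : Polynomial ℕ) ^ k).eval x.length =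
      (4 * x.length + 3) ^ k := by simp
  rw [e]
  refine Nat.pow_le_pow_left ?_ _
  have := sz_str x
  omega

theorem pb_eval {f : List Bool → List Bool} (hf : PF f) (p : Polynomial ℕ) :
    PB (fun x => p.eval (f x).length) :=
  (pf_eval (PF.length hf) p).size.mono fun x => by rw [sz_nat]; omega

theorem uP1_le (z : List Bool) : (uP z).1.length ≤ z.length := by
  unfold uP
  rw [List.length_map, List.length_range]
  unfold cnt
  rcases h : (List.range (z.length + 1)).find? (fun i => !(z.getD (6 * i) false)) with _ | i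
  · exact Nat.zero_le _
  · have := List.mem_range.1 (List.mem_of_find?_eq_some h)
    rw [Option.getD_some]
    omega

/-! ### `NP` relative to a language -/

/-- `NP` is contained in every relativised `NP` -/
theorem np_sub_rel {L : DecisionProblem} (hL : L ∈ NP) (B : DecisionProblem) : L ∈ NPRel B := by
  obtain ⟨p, R, hR, h⟩ := hL
  rw [mem_npRel]
  refine ⟨p, fun y => R (uP y), ⟨fun _ => [], fun u => R (uP u.1), 0,
    isPolyTimeL_of_pf (PF.const []),
    isPolyTime_of_pf2 ((pf_of_isPolyTime2 hR).comp (pf_uP PF.fst)), fun x => rfl⟩, fun x => ?_⟩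
  rw [h x]
  simp only [uP_eP]

/-- relative to languages in `NP ∩ coNP` nothing new arises -/
theorem npRel_sub {M : DecisionProblem} (hM : M ∈ NP ∩ coNP) {L : DecisionProblem}
    (hL : L ∈ NPRel M) : L ∈ NP := by
  rw [mem_npRel] at hL
  obtain ⟨p, M₂, hM₂, hL⟩ := hL
  obtain ⟨r, rfl⟩ := exists_ΩT hM₂
  obtain ⟨c, k, hc⟩ := np_nf (ΩT_closed r hM).1
  have hc := hc k le_rfl
  have h1 : PF (fun q : List Bool × List Bool => eP q.1 (uP q.2).1) :=
    pf_eP PF.fst (PF.fst' (pf_uP PF.snd))
  have h2 : PF (fun q : List Bool × List Bool => decide ((uP q.2).1.length ≤ p.eval q.1.length)) :=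
    PF.le (PF.length (PF.fst' (pf_uP PF.snd))) (pf_eval (PF.length PF.fst) p)
  have h3 : PF (fun q : List Bool × List Bool => tm k (eP q.1 (uP q.2).1)) :=
    pf_powK (PF.add (PF.length h1) (PF.const 2)) k
  have h4 : PF (fun q : List Bool × List Bool => accT c (tm k (eP q.1 (uP q.2).1))
      (eP q.1 (uP q.2).1) (uP q.2).2) := pf_accT (PF.const c) h3 h1 (PF.snd' (pf_uP PF.snd))
  have h5 : PF (fun x : List Bool => p.eval x.length) := pf_eval (PF.length PF.id) p
  have h6 : PF (fun x : List Bool => (6 * x.length + 3 * p.eval x.length + 3) ^ k) :=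
    pf_powK (PF.add (PF.add (PF.mul (PF.const 6) (PF.length PF.id))
      (PF.mul (PF.const 3) h5)) (PF.const 3)) k
  have h7 : PF (fun x : List Bool => 6 * p.eval x.length + 1 +
      3 * (6 * x.length + 3 * p.eval x.length + 3) ^ k) :=
    PF.add (PF.add (PF.mul (PF.const 6) h5) (PF.const 1)) (PF.mul (PF.const 3) h6)
  refine mem_np_of (R := fun q => decide ((uP q.2).1.length ≤ p.eval q.1.length) &&
    accT c (tm k (eP q.1 (uP q.2).1)) (eP q.1 (uP q.2).1) (uP q.2).2) (PF.and h2 h4)
    (b := fun x => 6 * p.eval x.length + 1 + 3 * (6 * x.length + 3 * p.eval x.length + 3) ^ k)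
    (h7.size.mono fun x => by rw [sz_nat]; omega) ?_ ?_
  · intro x u hu
    rw [Bool.and_eq_true, decide_eq_true_eq] at hu
    rw [hL]
    refine ⟨_, hu.1, ?_⟩
    rw [hc]
    exact ⟨_, hu.2⟩
  · intro x hx
    rw [hL] at hx
    obtain ⟨w, hw, hw'⟩ := hx
    rw [hc] at hw'
    obtain ⟨v, hv⟩ := hw'
    refine ⟨eP w v, ?_, ?_⟩
    · rw [eP_length]
      have h8 : v.length ≤ tm k (eP x w) := accT_len hv
      have h9 : tm k (eP x w) ≤ (6 * x.length + 3 * p.eval x.length + 3) ^ k := by
        unfold tm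
        rw [eP_length]
        exact Nat.pow_le_pow_left (by omega) _
      omega
    · rw [Bool.and_eq_true, decide_eq_true_eq]
      dsimp only
      rw [uP_eP]
      exact ⟨hw, hv⟩

/-- a Turing reduction followed by a many-one reduction of the oracle -/
theorem turing_comp_right {A B C : DecisionProblem} (h1 : TuringReducible A B)
    (h2 : ManyOneReducible B C) : TuringReducible A C := by
  obtain ⟨q, d, p, hq, hd, hA⟩ := h1
  obtain ⟨f, hf, hfB⟩ := h2
  refine ⟨fun u => f (q u), d, p,
    isPolyTimeL_of_pf ((pf_of_isPolyTime hf).comp (pf_of_isPolyTimeL hq)), hd, fun x => ?_⟩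
  have key : ∀ n, oracleAnswers (fun u => f (q u)) C x n = oracleAnswers q B x n := by
    intro n
    induction n with
    | zero => rfl
    | succ n ih => rw [oracleAnswers, oracleAnswers, ih, hfB]
  rw [hA, key]

theorem npRel_mono {M M' : DecisionProblem} (h : ManyOneReducible M M') {L : DecisionProblem}
    (hL : L ∈ NPRel M) : L ∈ NPRel M' := by
  obtain ⟨p, M₂, hM₂, hL⟩ := hL
  exact ⟨p, M₂, turing_comp_right hM₂ h, hL⟩

/-- closure under many-one reductions -/
theorem npRel_closed {L' L M : DecisionProblem} (h : ManyOneReducible L' L)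
    (hL : L ∈ NPRel M) : L' ∈ NPRel M := by
  rw [mem_npRel] at hL ⊢
  obtain ⟨p, M₂, hM₂, hL⟩ := hL
  obtain ⟨f, hf, hfL⟩ := h
  have hf' := pf_of_isPolyTime hf
  obtain ⟨q, hq⟩ := poly_of_pb (pb_eval hf' p)
  have h1 : PF (fun y : List Bool => f (uP y).1) := hf'.comp (PF.fst' (pf_uP PF.id))
  refine ⟨q, fun y => M₂ (eP (f (uP y).1) ((uP y).2.take (p.eval (f (uP y).1).length))),
    turing_comp ⟨fun y => eP (f (uP y).1) ((uP y).2.take (p.eval (f (uP y).1).length)),
      isPolyTime_of_pf (pf_eP h1 (PF.take (pf_eval (PF.length h1) p) (PF.snd' (pf_uP PF.id)))),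
      fun _ => rfl⟩ hM₂, fun x => ?_⟩
  rw [hfL, hL]
  simp only [uP_eP]
  constructor
  · rintro ⟨w, hw, hw'⟩
    exact ⟨w, hw.trans (hq x), by rwa [List.take_of_length_le hw]⟩
  · rintro ⟨w, _, hw'⟩
    exact ⟨_, by rw [List.length_take]; exact min_le_left _ _, hw'⟩

/-! ### the jump is complete -/

/-- the jump is in the relativised `NP` -/
theorem J_mem (B : DecisionProblem) : J B ∈ NPRel B := by
  rw [mem_npRel]
  refine ⟨Polynomial.X, fun y => decide ((uP y).2.length ≤ lJ (uP y).1) &&
    valC (iE (uP y).1) (uP y).1.length B (eP (xJ (uP y).1) (uP y).2),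
    ⟨fun u => qry (tx (iE (uP u.1).1)).1
        (tcC (iE (uP u.1).1) (eP (xJ (uP u.1).1) (uP u.1).2) (uP u.1).1.length)
        (eP (xJ (uP u.1).1) (uP u.1).2) u.2,
      fun u => decide ((uP u.1).2.length ≤ lJ (uP u.1).1) &&
        dcs (tx (iE (uP u.1).1)).2.1
          (tcC (iE (uP u.1).1) (eP (xJ (uP u.1).1) (uP u.1).2) (uP u.1).1.length)
          (eP (xJ (uP u.1).1) (uP u.1).2)
          (u.2.take (tqC (iE (uP u.1).1) (eP (xJ (uP u.1).1) (uP u.1).2) (uP u.1).1.length)),
      Polynomial.X, ?_, ?_, fun y => ?_⟩, fun z => ?_⟩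
  · have hz : PF (fun u : List Bool × List Bool => (uP u.1).1) := PF.fst' (pf_uP PF.fst)
    have hr : PF (fun u : List Bool × List Bool => iE (uP u.1).1) := pf_iE hz
    have hx : PF (fun u : List Bool × List Bool => eP (xJ (uP u.1).1) (uP u.1).2) :=
      pf_eP (pf_xJ hz) (PF.snd' (pf_uP PF.fst))
    have hT : PF (fun u : List Bool × List Bool =>
        tcC (iE (uP u.1).1) (eP (xJ (uP u.1).1) (uP u.1).2) (uP u.1).1.length) :=
      pf_tmC (PF.snd' (PF.snd' (PF.snd' (pf_tx hr)))) hx (PF.length hz)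
    exact isPolyTimeL_of_pf (pf_qry (PF.fst' (pf_tx hr)) hT hx PF.snd)
  · have hz : PF (fun u : List Bool × List Bool => (uP u.1).1) := PF.fst' (pf_uP PF.fst)
    have hr : PF (fun u : List Bool × List Bool => iE (uP u.1).1) := pf_iE hz
    have hx : PF (fun u : List Bool × List Bool => eP (xJ (uP u.1).1) (uP u.1).2) :=
      pf_eP (pf_xJ hz) (PF.snd' (pf_uP PF.fst))
    have hT : PF (fun u : List Bool × List Bool =>
        tcC (iE (uP u.1).1) (eP (xJ (uP u.1).1) (uP u.1).2) (uP u.1).1.length) :=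
      pf_tmC (PF.snd' (PF.snd' (PF.snd' (pf_tx hr)))) hx (PF.length hz)
    have hQ : PF (fun u : List Bool × List Bool =>
        tqC (iE (uP u.1).1) (eP (xJ (uP u.1).1) (uP u.1).2) (uP u.1).1.length) :=
      pf_tmC (PF.fst' (PF.snd' (PF.snd' (pf_tx hr)))) hx (PF.length hz)
    have h1 : PF (fun u : List Bool × List Bool => decide ((uP u.1).2.length ≤ lJ (uP u.1).1)) :=
      PF.le (PF.length (PF.snd' (pf_uP PF.fst))) (pf_lJ hz)
    have h2 : PF (fun u : List Bool × List Bool => dcs (tx (iE (uP u.1).1)).2.1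
          (tcC (iE (uP u.1).1) (eP (xJ (uP u.1).1) (uP u.1).2) (uP u.1).1.length)
          (eP (xJ (uP u.1).1) (uP u.1).2)
          (u.2.take (tqC (iE (uP u.1).1) (eP (xJ (uP u.1).1) (uP u.1).2)
            (uP u.1).1.length))) :=
      pf_dcs (PF.fst' (PF.snd' (pf_tx hr))) hT hx (PF.take hQ PF.snd)
    exact isPolyTime_of_pf2 (PF.and h1 h2)
  · rw [oracleAnswers_eq, Polynomial.eval_X]
    dsimp only
    rw [answers_take]
    · rfl
    · exact (min_le_right _ _).trans (uP1_le y)
  · rw [J_iff, Polynomial.eval_X]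
    simp only [uP_eP, Bool.and_eq_true, decide_eq_true_eq]
    constructor
    · rintro ⟨w, hw, hw'⟩
      exact ⟨w, hw.trans (lJ_le z), hw, hw'⟩
    · rintro ⟨w, _, hw, hw'⟩
      exact ⟨w, hw, hw'⟩

/-- everything in the relativised `NP` is reducible to the jump -/
theorem J_hard {B L : DecisionProblem} (hL : L ∈ NPRel B) : ManyOneReducible L (J B) := by
  rw [mem_npRel] at hL
  obtain ⟨p, M, hM, hL⟩ := hL
  obtain ⟨r, rfl⟩ := exists_ΩT hM
  set b : List Bool → ℕ := fun x => (6 * x.length + 3 * p.eval x.length + 3) ^ (tx r).2.2.1 +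
    (6 * x.length + 3 * p.eval x.length + 3) ^ (tx r).2.2.2 + p.eval x.length with hb
  have hb0 : PF (fun x : List Bool => 6 * x.length + 3 * p.eval x.length + 3) :=
    PF.add (PF.add (PF.mul (PF.const 6) (PF.length PF.id))
      (PF.mul (PF.const 3) (pf_eval (PF.length PF.id) p))) (PF.const 3)
  have hb' : PF b := PF.add (PF.add (pf_powK hb0 _) (pf_powK hb0 _)) (pf_eval (PF.length PF.id) p)
  refine ⟨fun x => inst r (eP x (List.replicate (p.eval x.length) true)) (b x),
    isPolyTime_of_pf (pf_inst (PF.const r) (pf_eP PF.id (PF.replicate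
      (pf_eval (PF.length PF.id) p) (PF.const true))) hb'), fun x => ?_⟩
  set z := inst r (eP x (List.replicate (p.eval x.length) true)) (b x) with hz
  have hlen : b x ≤ z.length := le_inst _ _ _
  have e1 : iE z = r := iE_inst _ _ _
  have e2 : iX z = eP x (List.replicate (p.eval x.length) true) := iX_inst _ _ _
  have e3 : xJ z = x := by unfold xJ; rw [e2, uP_eP]
  have e4 : lJ z = p.eval x.length := by
    unfold lJ
    rw [e2, uP_eP, List.length_replicate]
    refine min_eq_left (le_trans ?_ hlen)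
    rw [hb]
    dsimp only
    omega
  rw [Bool.eq_iff_iff, hL, J_iff, e1, e3, e4]
  have key : ∀ w : List Bool, w.length ≤ p.eval x.length →
      valC r z.length B (eP x w) = ΩT r B (eP x w) := by
    intro w hw
    have h6 : ∀ k, tm k (eP x w) ≤ (6 * x.length + 3 * p.eval x.length + 3) ^ k := by
      intro k
      unfold tm
      rw [eP_length]
      exact Nat.pow_le_pow_left (by omega) _
    refine valC_eq ((h6 _).trans (le_trans ?_ hlen)) ((h6 _).trans (le_trans ?_ hlen))
    · rw [hb]; dsimp only; omega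
    · rw [hb]; dsimp only; omega
  constructor
  · rintro ⟨w, hw, hw'⟩
    exact ⟨w, hw, by rw [key w hw]; exact hw'⟩
  · rintro ⟨w, hw, hw'⟩
    exact ⟨w, hw, by rw [← key w hw]; exact hw'⟩

/-! ### levels -/

theorem J_level (B : DecisionProblem) (m : ℕ) : J^[m + 1] B ∈ SigmaRel (m + 1) B := by
  induction m with
  | zero => exact J_mem B
  | succ m ih =>
    rw [Function.iterate_succ_apply']
    exact ⟨_, ih, J_mem _⟩

theorem level_J {B : DecisionProblem} (m : ℕ) : ∀ {L : DecisionProblem},
    L ∈ SigmaRel (m + 1) B → ManyOneReducible L (J^[m + 1] B) := by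
  induction m with
  | zero => intro L hL; exact J_hard hL
  | succ m ih =>
    intro L hL
    obtain ⟨M, hM, hL⟩ := hL
    rw [Function.iterate_succ_apply']
    exact J_hard (npRel_mono (ih hM) hL)

theorem level_closed {B L' L : DecisionProblem} (m : ℕ) (h : ManyOneReducible L' L)
    (hL : L ∈ SigmaRel (m + 1) B) : L' ∈ SigmaRel (m + 1) B := by
  cases m with
  | zero => exact npRel_closed h hL
  | succ m =>
    obtain ⟨M, hM, hL⟩ := hL
    exact ⟨M, hM, npRel_closed h hL⟩

/-- nothing new arises relative to a language in `NP ∩ coNP` -/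
theorem level_sub {B : DecisionProblem} (hB : B ∈ NP ∩ coNP) (m : ℕ) :
    ∀ {L : DecisionProblem}, L ∈ SigmaRel (m + 1) B → L ∈ SigmaP (m + 1) := by
  induction m with
  | zero => intro L hL; exact np_sub_rel (npRel_sub hB hL) _
  | succ m ih =>
    intro L hL
    obtain ⟨M, hM, hL⟩ := hL
    exact ⟨M, ih hM, hL⟩

end Pool.Agent.T9h21.UB
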