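import Pool.Agent.T9h21.UB.Stage

/-!
# The stages are computed in polynomial time
-/

set_option autoImplicit false

namespace Pool.Agent.T9h21.UB

open Turing Computability N68a2faeb N793a5b8e
open Pool.Agent.H583R2
open Pool.Agent.T9h49.SC hiding found act stp st upd badN RK RN KK NN Good

section
variable {α : Type} [TEnc α]

theorem pf_lv {l : α → List ℕ} {m : α → ℕ} (hl : PF l) (hm : PF m) :
    PF (fun a => lv (l a) (m a)) := by
  unfold lv
  exact PF.length (PF.filter (f := fun a e => decide (e ≤ m a)) hl (PF.le PF.snd (hm.comp PF.fst)))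

variable {K : DecisionProblem} (E : Ev fun _ => K)

theorem pf_cnd {l : α → List ℕ} {n : α → ℕ} {y : α → List Bool} (hl : PF l) (hn : PF n)
    (hy : PF y) : PF (fun a => cnd E (l a) (n a) (y a)) := by
  unfold cnd
  exact PF.and (PF.and (PF.lt (pf_iE hy) (pf_lv hl hn)) (PF.not (pf_found E (pf_iE hy) hn)))
    (PF.le (pf_tmC (pf_ke (pf_iE hy)) (pf_iX hy) (PF.succ hn)) hn)

theorem pf_Rd {s : α → ℕ} {l : α → List ℕ} {z : α → List Bool} (hs : PF s) (hl : PF l)
    (hz : PF z) : PF (fun a => Rd E (s a) (l a) (z a)) := by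
  unfold Rd
  exact PF.ite (PF.headD hz (PF.const false))
    (PF.ite (PF.natEq (pf_par (pf_lv hl (PF.length hz))) hs) (PF.const none)
      (PF.mkSome (PF.tail hz)))
    (PF.ite (pf_cnd E hl (PF.length hz) (PF.tail hz))
      (PF.mkSome (pf_phiC (pf_iE (PF.tail hz)) (pf_iX (PF.tail hz)) (PF.length hz)))
      (PF.const none))

theorem pf_orc {s n : α → ℕ} {l : α → List ℕ} {z : α → List Bool} (hs : PF s) (hl : PF l)
    (hn : PF n) (hz : PF z) : PF (fun a => orc E (s a) (l a) (n a) (z a)) := by
  refine (PF.ite (PF.le (PF.length hz) hn)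
    (PF.optCase (l := fun a => Rd E (s a) (l a) (z a)) (g := fun _ => some false)
      (h := fun a y => E.ev 0 y (n a)) (pf_Rd E hs hl hz) (PF.const _)
      (E.pf (PF.const 0) PF.snd (hn.comp PF.fst))) (PF.const none)).congr fun a => ?_
  unfold orc
  rcases Rd E (s a) (l a) (z a) with _ | y <;> rfl

theorem pf_dif {a b : α → Option Bool} (ha : PF a) (hb : PF b) :
    PF (fun p => dif (a p) (b p)) := by
  unfold dif
  exact PF.and (PF.and (PF.isSome ha) (PF.isSome hb))
    (PF.not (PF.beqBool (PF.getD ha (PF.const false)) (PF.getD hb (PF.const false))))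

variable {A : ℕ → DecisionProblem} (EA : Ev A) (F : Fn)

theorem pf_chk {l : α → List ℕ} {n : α → ℕ} (hl : PF l) (hn : PF n) :
    PF (fun a => chk E EA F (l a) (n a)) := by
  unfold chk
  have hu : PF (fun a => Nat.unpair (hlf (l a).length)) := pf_unpair (pf_hlf (PF.length hl))
  exact PF.any (f := fun a j => dif (EA.ev (Nat.unpair (hlf (l a).length)).1 (str j) (n a))
    (F.ΩB (Nat.unpair (hlf (l a).length)).1 (Nat.unpair (hlf (l a).length)).2
      (orc E (par (l a).length) (l a) (n a)) (str j) (n a))) (PF.range hn)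
    (pf_dif (EA.pf (PF.fst' (hu.comp PF.fst)) (PF.str PF.snd) (hn.comp PF.fst))
      (F.pf (o := fun (p : α × ℕ) => orc E (par (l p.1).length) (l p.1) (n p.1))
        (pf_orc E (pf_par (PF.length (hl.comp (PF.fst' PF.fst)))) (hl.comp (PF.fst' PF.fst))
          (hn.comp (PF.fst' PF.fst)) PF.snd)
        (PF.fst' (hu.comp PF.fst)) (PF.snd' (hu.comp PF.fst)) (PF.str PF.snd)
        (hn.comp PF.fst)))

theorem sz_S (n : ℕ) : sz (S E EA F n) ≤ n * (2 * n + 2) + 1 := by
  refine (sz_list_le _ (2 * n + 1) fun e he => ?_).trans ?_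
  · rw [sz_nat]
    have := S_mem E EA F n e he
    omega
  · have := S_len E EA F n
    nlinarith

theorem pf_S {n : α → ℕ} (hn : PF n) : PF (fun a => S E EA F (n a)) := by
  have key : ∀ j, (fun q : ℕ × List ℕ => (q.1 + 1,
      if chk E EA F q.2 q.1 then q.2 ++ [q.1 + 1] else q.2))^[j] (0, []) =
      (j, S E EA F j) := by
    intro j
    induction j with
    | zero => rfl
    | succ j ih => rw [Function.iterate_succ_apply', ih]; rfl
  have h := PF.iterate (n := n) (s := fun _ => ((0, []) : ℕ × List ℕ))
    (f := fun _ q => (q.1 + 1, if chk E EA F q.2 q.1 then q.2 ++ [q.1 + 1] else q.2)) hn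
    (PF.const _)
    (PF.pair (PF.succ (PF.fst' PF.snd)) (PF.ite (pf_chk E EA F (PF.snd' PF.snd) (PF.fst' PF.snd))
      (PF.append (PF.snd' PF.snd) (PF.cons (PF.succ (PF.fst' PF.snd)) (PF.const [])))
      (PF.snd' PF.snd)))
    (b := fun a => sz (n a) * (2 * sz (n a) + 2) + 2 * sz (n a) + 4)
    (((hn.size.mul (((PB.const 2).mul hn.size).add (PB.const 2))).add
      ((PB.const 2).mul hn.size)).add (PB.const 4)) (by
      intro a j hj
      rw [key, sz_prod, sz_nat]
      have h1 := sz_S E EA F j
      have h2 : j ≤ sz (n a) := by rw [sz_nat]; omega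
      have h3 : j * (2 * j + 2) ≤ sz (n a) * (2 * sz (n a) + 2) :=
        Nat.mul_le_mul h2 (by omega)
      dsimp only
      omega)
  refine (PF.snd' h).congr fun a => ?_
  rw [key]

/-! ### the languages `K_s` are reducible to `K` -/

/-- the reduction -/
theorem pf_red (s : ℕ) (no : List Bool) :
    PF (fun z : List Bool => (Rd E s (S E EA F z.length) z).getD no) :=
  PF.getD (pf_Rd E (PF.const s) (pf_S E EA F (PF.length PF.id)) PF.id) (PF.const no)

end

section
variable {K : DecisionProblem} (E : Ev fun _ => K) {A : ℕ → DecisionProblem} (EA : Ev A) (F : Fn)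

theorem KS_red {no : List Bool} (hno : K no = false) (s : ℕ) :
    ManyOneReducible (KS E EA F s) K := by
  refine ⟨_, isPolyTime_of_pf (pf_red E EA F s no), fun z => ?_⟩
  unfold KS
  rcases Rd E s (S E EA F z.length) z with _ | y
  · exact hno.symm
  · rfl

/-! ### a stage which does not end -/

/-- `K_s` in the last stage -/
theorem KS_mem {n₀ : ℕ} (hS : ∀ n, n₀ ≤ n → S E EA F n = S E EA F n₀) :
    KS E EA F (par (S E EA F n₀).length) ∈ NP ∩ coNP := by
  classical
  set i := (S E EA F n₀).length with hi
  set s := par i with hs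
  -- all bad pairs are found
  have hex : ∃ n₁, n₀ ≤ n₁ ∧ ∀ e, e < i → ¬ Good K e → ∀ N, n₁ ≤ N → found E e N = true := by
    have : ∀ j, ∃ n₁, n₀ ≤ n₁ ∧ ∀ e, e < j → ¬ Good K e → ∀ N, n₁ ≤ N → found E e N = true := by
      intro j
      induction j with
      | zero => exact ⟨n₀, le_rfl, fun e h => absurd h (by omega)⟩
      | succ j ih =>
        obtain ⟨n₁, h0, h1⟩ := ih
        by_cases hg : Good K j
        · refine ⟨n₁, h0, fun e he hb N hN => ?_⟩
          rcases Nat.lt_succ_iff_lt_or_eq.1 he with h | h
          · exact h1 e h hb N hN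
          · subst h; exact absurd hg hb
        · obtain ⟨n₂, h2⟩ := found_of_not_good E hg
          refine ⟨max n₁ n₂, h0.trans (le_max_left _ _), fun e he hb N hN => ?_⟩
          rcases Nat.lt_succ_iff_lt_or_eq.1 he with h | h
          · exact h1 e h hb N ((le_max_left _ _).trans hN)
          · subst h; exact h2 N ((le_max_right _ _).trans hN)
    exact this i
  obtain ⟨n₁, hn₀, hbad⟩ := hex
  -- the finite table
  set tbl : List (List Bool) := ((List.range (2 ^ (n₁ + 1))).map str).filter
    (fun z => decide (z.length < n₁) && KS E EA F s z) with htbl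
  have htab : ∀ z : List Bool, z.length < n₁ → (tbl.any (fun y => y == z) = KS E EA F s z) := by
    intro z hz
    rw [Bool.eq_iff_iff, List.any_eq_true]
    constructor
    · rintro ⟨y, hy, hyz⟩
      rw [beq_iff_eq] at hyz
      subst hyz
      rw [htbl, List.mem_filter, Bool.and_eq_true] at hy
      exact hy.2.2
    · intro h
      refine ⟨z, ?_, by simp⟩
      rw [htbl, List.mem_filter, Bool.and_eq_true, decide_eq_true_eq]
      refine ⟨?_, hz, h⟩
      rw [List.mem_map]
      refine ⟨idx z, ?_, str_idx z⟩
      rw [List.mem_range]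
      have h1 := idx_lt z
      have h2 : 2 ^ (z.length + 1) ≤ 2 ^ (n₁ + 1) := Nat.pow_le_pow_right (by norm_num) (by omega)
      omega
  -- the values at large lengths
  set cn : List Bool → Bool := fun z => !(z.headD false) &&
    cnd E (S E EA F n₀) z.length z.tail with hcn
  have hval : ∀ z : List Bool, n₁ ≤ z.length → (cn z = false → KS E EA F s z = false) ∧
      (cn z = true → Good K (iE z.tail) ∧ tm (ke (iE z.tail)) (iX z.tail) ≤ z.length ∧
        KS E EA F s z = K (phi (iE z.tail) (iX z.tail))) := by
    intro z hz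
    have hSz := hS z.length (hn₀.trans hz)
    have hlv : lv (S E EA F n₀) z.length = i := by
      have := lv_self E EA F z.length
      rw [hSz] at this
      exact this
    have hp : par (lv (S E EA F n₀) z.length) = s := by rw [hlv]
    constructor
    · intro h
      unfold KS
      rw [hSz]
      unfold Rd
      by_cases hh : z.headD false = true
      · rw [if_pos hh, if_pos (by simpa using hp)]
      · rw [if_neg hh, if_neg]
        intro hc
        rw [hcn] at h
        simp only [hc, Bool.and_true, Bool.not_eq_false'] at h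
        exact hh h
    · intro h
      rw [hcn] at h
      simp only [Bool.and_eq_true, Bool.not_eq_true'] at h
      obtain ⟨h1, h2⟩ := h
      have h3 := h2
      unfold cnd at h3
      rw [Bool.and_eq_true, Bool.and_eq_true, decide_eq_true_eq, Bool.not_eq_true',
        decide_eq_true_eq, hlv] at h3
      obtain ⟨⟨h4, h5⟩, h6⟩ := h3
      have h7 : tm (ke (iE z.tail)) (iX z.tail) ≤ z.length := by
        unfold tmC at h6
        by_contra h8
        rw [min_eq_right (by omega)] at h6
        omega
      refine ⟨?_, h7, ?_⟩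
      · by_contra hg
        rw [hbad _ h4 hg _ hz] at h5
        exact absurd h5 (by simp)
      · unfold KS
        rw [hSz]
        unfold Rd
        rw [if_neg (by rw [h1]; simp), if_pos h2]
        dsimp only
        rw [phiC_eq h7]
  have pf_tb : ∀ {α : Type} [TEnc α] {z : α → List Bool}, PF z →
      PF (fun a => tbl.any (fun y => y == z a)) := by
    intro α _ z hz
    exact PF.any (l := fun _ => tbl) (f := fun a y => y == z a) (PF.const tbl)
      (PF.beqStr PF.snd (hz.comp PF.fst))
  have pf_cn : ∀ {α : Type} [TEnc α] {z : α → List Bool}, PF z → PF (fun a => cn (z a)) := by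
    intro α _ z hz
    exact PF.and (PF.not (PF.headD hz (PF.const false)))
      (pf_cnd E (PF.const _) (PF.length hz) (PF.tail hz))
  have htT : ∀ {z : List Bool}, n₁ ≤ z.length → cn z = true →
      tmC (ke (iE z.tail)) (iX z.tail) z.length = tm (ke (iE z.tail)) (iX z.tail) := by
    intro z h1 h2
    exact min_eq_left ((hval z h1).2 h2).2.1
  constructor
  · -- `NP`
    set R1 : List Bool × List Bool → Bool := fun q =>
      if decide (q.1.length < n₁) then tbl.any (fun y => y == q.1) else
        cn q.1 && accT (jx (iE q.1.tail)).1 (tmC (ke (iE q.1.tail)) (iX q.1.tail) q.1.length)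
          (iX q.1.tail) q.2 with hR1
    have hpf : PF R1 := PF.ite (PF.lt (PF.length PF.fst) (PF.const n₁)) (pf_tb PF.fst)
      (PF.and (pf_cn PF.fst) (pf_accT (PF.fst' (pf_jx (pf_iE (PF.tail PF.fst))))
        (pf_tmC (pf_ke (pf_iE (PF.tail PF.fst))) (pf_iX (PF.tail PF.fst)) (PF.length PF.fst))
        (pf_iX (PF.tail PF.fst)) PF.snd))
    refine mem_np hpf fun z => ?_
    by_cases hz : z.length < n₁
    · have e : ∀ w, R1 (z, w) = KS E EA F s z := fun w => by
        rw [hR1]
        dsimp only
        rw [if_pos (by simpa using hz), htab z hz]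
      simp only [e]
      exact ⟨fun h => ⟨[], by simp, h⟩, fun ⟨_, _, h⟩ => h⟩
    · have hz' : n₁ ≤ z.length := by omega
      have e : ∀ w, R1 (z, w) = (cn z && accT (jx (iE z.tail)).1
          (tmC (ke (iE z.tail)) (iX z.tail) z.length) (iX z.tail) w) := fun w => by
        rw [hR1]
        dsimp only
        rw [if_neg (by simpa using hz')]
      simp only [e]
      rcases hc : cn z with _ | _
      · rw [(hval z hz').1 hc]
        simp
      · obtain ⟨h1, h2, h3⟩ := (hval z hz').2 hc
        rw [h3, ← (h1 (iX z.tail)).1]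
        simp only [Bool.true_and]
        exact (search_iff h2).symm
  · -- `coNP`
    change (KS E EA F s)ᶜ ∈ NP
    set R2 : List Bool × List Bool → Bool := fun q =>
      if decide (q.1.length < n₁) then !(tbl.any (fun y => y == q.1)) else
        !(cn q.1) || accT (jx (iE q.1.tail)).2.1
          (tmC (ke (iE q.1.tail)) (iX q.1.tail) q.1.length) (iX q.1.tail) q.2 with hR2
    have hpf : PF R2 := PF.ite (PF.lt (PF.length PF.fst) (PF.const n₁)) (PF.not (pf_tb PF.fst))
      (PF.or (PF.not (pf_cn PF.fst)) (pf_accT (PF.fst' (PF.snd' (pf_jx (pf_iE (PF.tail PF.fst)))))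
        (pf_tmC (pf_ke (pf_iE (PF.tail PF.fst))) (pf_iX (PF.tail PF.fst)) (PF.length PF.fst))
        (pf_iX (PF.tail PF.fst)) PF.snd))
    refine mem_np hpf fun z => ?_
    have hcomp : (KS E EA F s)ᶜ z = true ↔ KS E EA F s z = false := by simp
    rw [hcomp]
    by_cases hz : z.length < n₁
    · have e : ∀ w, R2 (z, w) = !(KS E EA F s z) := fun w => by
        rw [hR2]
        dsimp only
        rw [if_pos (by simpa using hz), htab z hz]
      simp only [e, Bool.not_eq_true']
      exact ⟨fun h => ⟨[], by simp, h⟩, fun ⟨_, _, h⟩ => h⟩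
    · have hz' : n₁ ≤ z.length := by omega
      have e : ∀ w, R2 (z, w) = (!(cn z) || accT (jx (iE z.tail)).2.1
          (tmC (ke (iE z.tail)) (iX z.tail) z.length) (iX z.tail) w) := fun w => by
        rw [hR2]
        dsimp only
        rw [if_neg (by simpa using hz')]
      simp only [e]
      rcases hc : cn z with _ | _
      · rw [(hval z hz').1 hc]
        simp only [Bool.not_false, Bool.true_or, true_iff]
        exact ⟨[], by simp⟩
      · obtain ⟨h1, h2, h3⟩ := (hval z hz').2 hc
        rw [h3, ← (h1 (iX z.tail)).2]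
        simp only [Bool.not_true, Bool.false_or]
        exact (search_iff h2).symm

end

end Pool.Agent.T9h21.UB
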