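import Pool.Agent.T9h21.UB.Clo
import Pool.Agent.T9h21.UB.Engine

/-!
# Turing reductions are among the reductions of the family
-/

set_option autoImplicit false

namespace Pool.Agent.T9h21.UB

open Turing Computability N68a2faeb N793a5b8e
open Pool.Agent.H583R2
open Pool.Agent.T9h49.SC hiding found act stp st upd badN RK RN KK NN Good

theorem code_of_isPolyTimeL {q : List Bool × List Bool → List Bool} (h : IsPolyTime q) :
    ∃ (c : Code) (k : ℕ), ∀ x w t, (x.length + w.length + 2) ^ k ≤ t →
      U c (eP x w) t = some (eL (q (x, w))) := by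
  obtain ⟨c, k, hk⟩ := code_of_poly h
  obtain ⟨k', hk'⟩ := pow_lin 6 1 k
  refine ⟨c, k', fun x w t ht => ?_⟩
  have h1 := hk (x, w) t (by
    rw [encode_pair, eP_length]
    refine le_trans (le_trans (Nat.pow_le_pow_left ?_ _) (hk' (x.length + w.length))) ht
    omega)
  rwa [encode_pair, encode_list] at h1

theorem isPolyTimeL_of_pf {q : List Bool × List Bool → List Bool} (h : PF q) : IsPolyTime q := by
  refine poly_of_pf _ _ q (F := fun y => eL (q (uP y)))
    (pf_eL (h.comp (pf_uP PF.id))) ?_
  rintro ⟨x, w⟩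
  rw [encode_pair, uP_eP, encode_list]

theorem pf_of_isPolyTimeL {q : List Bool × List Bool → List Bool} (h : IsPolyTime q) : PF q := by
  obtain ⟨c, k, hk⟩ := code_of_isPolyTimeL h
  have h1 : PF (fun p : List Bool × List Bool =>
      uL ((U c (eP p.1 p.2) ((p.1.length + p.2.length + 2) ^ k)).getD [])) :=
    pf_uL (PF.getD (pf_U (PF.const c) (pf_eP PF.fst PF.snd)
      (pf_powK (PF.add (PF.add (PF.length PF.fst) (PF.length PF.snd)) (PF.const 2)) k))
      (PF.const []))
  refine h1.congr fun p => ?_
  rw [hk p.1 p.2 _ le_rfl, Option.getD_some, uL_eL]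

theorem oracleAnswers_eq (q : List Bool × List Bool → List Bool) (B : DecisionProblem)
    (x : List Bool) (n : ℕ) : oracleAnswers q B x n = answers (fun a => q (x, a)) B n := by
  induction n with
  | zero => rfl
  | succ n ih => rw [oracleAnswers, answers, ih]

/-- many-one reductions are Turing reductions -/
theorem turing_of_manyOne {A B : DecisionProblem} (h : ManyOneReducible A B) :
    TuringReducible A B := by
  obtain ⟨f, hf, hfA⟩ := h
  refine ⟨fun p => f p.1, fun p => p.2.headD false, 1,
    isPolyTimeL_of_pf ((pf_of_isPolyTime hf).comp PF.fst),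
    isPolyTime_of_pf2 (PF.headD PF.snd (PF.const false)), fun x => ?_⟩
  rw [Polynomial.eval_one, hfA]
  rfl

theorem pow_pow_le (a b : ℕ) : ∃ c, ∀ n, (n + (n + 2) ^ a + 2) ^ b ≤ (n + 2) ^ c := by
  refine ⟨(a + 2) * b, fun n => ?_⟩
  rw [pow_mul]
  refine Nat.pow_le_pow_left ?_ _
  have h1 : 1 ≤ (n + 2) ^ a := Nat.one_le_pow _ _ (by omega)
  have h2 : (n + 2) ^ (a + 2) = (n + 2) ^ a * ((n + 2) * (n + 2)) := by ring
  rw [h2]
  nlinarith [Nat.mul_le_mul_right ((n + 2) * (n + 2)) h1, Nat.zero_le (n * (n + 2) ^ a),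
    Nat.zero_le (n * n * (n + 2) ^ a)]

/-- every Turing reduction has an index -/
theorem exists_ΩT {A B : DecisionProblem} (h : TuringReducible A B) : ∃ r, A = ΩT r B := by
  obtain ⟨q, d, p, hq, hd, hA⟩ := h
  obtain ⟨a, ha⟩ := poly_le p
  -- the decision looks at the first `p |x|` answers
  have hd' : PF (fun u : List Bool × List Bool => d (u.1, u.2.take (p.eval u.1.length))) :=
    (pf_of_isPolyTime2 hd).comp (PF.pair PF.fst (PF.take (pf_eval (PF.length PF.fst) p) PF.snd))
  obtain ⟨c, k1, hc⟩ := code_of_isPolyTimeL hq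
  obtain ⟨c', k2, hc'⟩ := code_of_isPolyTime2 (isPolyTime_of_pf2 hd')
  -- the length of the queries
  obtain ⟨k3, hk3⟩ := (pf_of_isPolyTimeL hq).size
  obtain ⟨m1, hm1⟩ := pow_pow_le a k1
  obtain ⟨m2, hm2⟩ := pow_pow_le a k2
  obtain ⟨m3, hm3⟩ : ∃ m, ∀ n, (4 * (n + (n + 2) ^ a) + 5) ^ k3 ≤ (n + 2) ^ m := by
    obtain ⟨m, hm⟩ := pow_pow_le a (k3 * 3)
    refine ⟨m, fun n => le_trans ?_ (hm n)⟩
    rw [mul_comm k3 3, pow_mul]
    refine Nat.pow_le_pow_left ?_ _
    generalize n + (n + 2) ^ a = u
    have : (u + 2) ^ 3 = (u + 2) * (u + 2) * (u + 2) := by ring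
    rw [this]
    nlinarith
  set m := max m1 (max m2 m3) with hm
  obtain ⟨r, hr⟩ := exists_tx (c, c', a, m)
  refine ⟨r, funext fun x => ?_⟩
  have htq : tq r x = (x.length + 2) ^ a := by unfold tq tm; rw [hr]
  have htc : tc r x = (x.length + 2) ^ m := by unfold tc tm; rw [hr]
  have hp1 : ∀ {i}, i ≤ m → (x.length + 2) ^ i ≤ (x.length + 2) ^ m := fun h =>
    Nat.pow_le_pow_right (by omega) h
  have hq1 : ∀ w : List Bool, w.length ≤ (x.length + 2) ^ a → qr r x w = q (x, w) := by
    intro w hw
    have h1 : (x.length + w.length + 2) ^ k1 ≤ tc r x := by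
      rw [htc]
      exact (Nat.pow_le_pow_left (by omega) _).trans ((hm1 x.length).trans
        (hp1 (le_max_left _ _)))
    unfold qr qry
    rw [hr]
    dsimp only
    rw [hc x w _ h1, Option.getD_some, uL_eL, List.take_of_length_le]
    refine (len_le_sz _).trans ((hk3 (x, w)).trans ?_)
    rw [htc]
    refine le_trans (Nat.pow_le_pow_left ?_ _) ((hm3 x.length).trans
      (hp1 ((le_max_right _ _).trans (le_max_right _ _))))
    have h2 := sz_str x
    have h3 := sz_str w
    rw [sz_pair]
    omega
  rw [ΩT_eq, htq, hA x, oracleAnswers_eq]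
  have hans : answers (qr r x) B ((x.length + 2) ^ a) =
      answers (fun w => q (x, w)) B ((x.length + 2) ^ a) :=
    answers_congr B _ fun w hw => hq1 w hw.le
  rw [hans]
  set W := answers (fun w => q (x, w)) B ((x.length + 2) ^ a) with hW
  have hWl : W.length = (x.length + 2) ^ a := answers_length _ _ _
  have h4 : (x.length + W.length + 2) ^ k2 ≤ tc r x := by
    rw [htc, hWl]
    exact (hm2 x.length).trans (hp1 ((le_max_left _ _).trans (le_max_right _ _)))
  unfold dr dcs
  rw [hr]
  dsimp only
  rw [hc' x W _ h4, Option.getD_some, List.headD_cons]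
  dsimp only
  rw [hW, answers_take _ _ (ha x.length)]

/-! ### the main theorem and evaluations -/

/-- reductions to languages with an evaluation have an evaluation -/
theorem ev_of_turing {A B : DecisionProblem} (EB : Ev fun _ => B) (h : TuringReducible A B) :
    Nonempty (Ev fun _ => A) := by
  obtain ⟨r, rfl⟩ := exists_ΩT h
  set o : ℕ → List Bool → Option Bool := fun N z =>
    if decide (z.length ≤ N) then EB.ev 0 z N else none with ho
  have hs : ∀ N z c, o N z = some c → B z = c := by
    intro N z c h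
    rw [ho] at h
    dsimp only at h
    split_ifs at h
    exact EB.sound _ _ _ _ h
  have htot : ∀ m, ∃ N₀, ∀ N, N₀ ≤ N → ∀ z : List Bool, z.length ≤ m → o N z = some (B z) := by
    intro m
    have key : ∀ j : ℕ, ∃ N₀, ∀ N, N₀ ≤ N → ∀ z : List Bool, idx z < j →
        o N z = some (B z) := by
      intro j
      induction j with
      | zero => exact ⟨0, fun N _ z hz => absurd hz (by omega)⟩
      | succ j ih =>
        obtain ⟨N₁, h1⟩ := ih
        obtain ⟨N₂, h2⟩ := EB.total 0 (str j)
        refine ⟨max N₁ (max N₂ (str j).length), fun N hN z hz => ?_⟩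
        rcases Nat.lt_succ_iff_lt_or_eq.1 hz with h | h
        · exact h1 N ((le_max_left _ _).trans hN) z h
        · have : z = str j := by rw [← h, str_idx]
          rw [this, ho]
          dsimp only
          rw [if_pos (by
            rw [decide_eq_true_eq]
            exact (le_max_right _ _).trans ((le_max_right _ _).trans hN))]
          exact h2 N ((le_max_left _ _).trans ((le_max_right _ _).trans hN))
    obtain ⟨N₀, h⟩ := key (2 ^ (m + 1))
    refine ⟨N₀, fun N hN z hz => h N hN z ?_⟩
    have h1 := idx_lt z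
    have h2 : 2 ^ (z.length + 1) ≤ 2 ^ (m + 1) := Nat.pow_le_pow_right (by norm_num) (by omega)
    omega
  refine ⟨⟨fun _ x N => ΩTB r (o N) x N, ?_, ?_, ?_⟩⟩
  · intro α _ i N x _ hx hN
    refine pf_ΩTB (o := fun a => o (N a)) ?_ (PF.const r) hx hN
    exact PF.ite (PF.le (PF.length PF.snd) (hN.comp PF.fst))
      (EB.pf (PF.const 0) PF.snd (hN.comp PF.fst)) (PF.const none)
  · intro i x N b hb
    exact ΩTB_sound r (o N) B x N b (hs N) hb
  · intro i x
    obtain ⟨N₁, h1⟩ := ΩTB_total r B x
    obtain ⟨N₂, h2⟩ := htot N₁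
    exact ⟨max N₁ N₂, fun N hN => h1 (o N) N ((le_max_left _ _).trans hN)
      (h2 N ((le_max_right _ _).trans hN))⟩

/-- the splitting theorem -/
theorem splitT {K : DecisionProblem} (E : Ev fun _ => K) (hK : Hard K)
    {A : ℕ → DecisionProblem} (EA : Ev A) (hA : ∀ m, A m ∉ NP ∩ coNP) :
    ∃ K' : ℕ → DecisionProblem, (∀ s, Hard (K' s) ∧ ManyOneReducible (K' s) K) ∧
      (∀ s t, s ≠ t → ManyOneReducible K (join (K' s) (K' t))) ∧
      ∀ s m, ¬ TuringReducible (A m) (K' s) := by
  obtain ⟨K', h1, h2, h3, h4⟩ := split FT E hK EA hA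
  refine ⟨K', fun s => ⟨h3 s, h1 s⟩, h2, fun s m h => ?_⟩
  obtain ⟨r, hr⟩ := exists_ΩT h
  exact h4 s m r hr

/-! ### composition -/

/-- a many-one reduction followed by a Turing reduction -/
theorem turing_comp {A B C : DecisionProblem} (h1 : ManyOneReducible A B)
    (h2 : TuringReducible B C) : TuringReducible A C := by
  obtain ⟨f, hf, hfA⟩ := h1
  obtain ⟨q, d, p, hq, hd, hB⟩ := h2
  have hf' := pf_of_isPolyTime hf
  obtain ⟨k, hk⟩ := hf'.size
  obtain ⟨a, ha⟩ := poly_le p
  -- a bound for the number of queries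
  have hb : ∀ x : List Bool, p.eval (f x).length ≤
      (((4 * Polynomial.X + 3) ^ k + 2) ^ a : Polynomial ℕ).eval x.length := by
    intro x
    have e : (((4 * Polynomial.X + 3) ^ k + 2) ^ a : Polynomial ℕ).eval x.length =
        ((4 * x.length + 3) ^ k + 2) ^ a := by simp
    rw [e]
    refine (ha _).trans (Nat.pow_le_pow_left ?_ _)
    have h3 := (len_le_sz (f x)).trans (hk x)
    have h4 : (sz x + 2) ^ k ≤ (4 * x.length + 3) ^ k :=
      Nat.pow_le_pow_left (by have := sz_str x; omega) _
    omega
  refine ⟨fun u => q (f u.1, u.2), fun u => d (f u.1, u.2.take (p.eval (f u.1).length)),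
    ((4 * Polynomial.X + 3) ^ k + 2) ^ a, ?_, ?_, fun x => ?_⟩
  · exact isPolyTimeL_of_pf ((pf_of_isPolyTimeL hq).comp (PF.pair (hf'.comp PF.fst) PF.snd))
  · exact isPolyTime_of_pf2 ((pf_of_isPolyTime2 hd).comp (PF.pair (hf'.comp PF.fst)
      (PF.take (pf_eval (PF.length (hf'.comp PF.fst)) p) PF.snd)))
  · rw [hfA, hB, oracleAnswers_eq, oracleAnswers_eq]
    dsimp only
    rw [answers_take _ _ (hb x)]

/-- the join is reducible to its second part if the first part is -/
theorem turing_join {A B : DecisionProblem} (h : TuringReducible A B) :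
    TuringReducible (join A B) B := by
  obtain ⟨q, d, p, hq, hd, hA⟩ := h
  have hq' := pf_of_isPolyTimeL hq
  have hd' := pf_of_isPolyTime2 hd
  obtain ⟨a, ha⟩ := poly_le p
  have hb : ∀ n m : ℕ, n ≤ m → p.eval n ≤ (((Polynomial.X + 2) ^ a) : Polynomial ℕ).eval m := by
    intro n m hnm
    have e : (((Polynomial.X + 2) ^ a) : Polynomial ℕ).eval m = (m + 2) ^ a := by simp
    rw [e]
    exact (ha n).trans (Nat.pow_le_pow_left (by omega) _)
  refine ⟨fun u => if u.1.headD false then u.1.tail else q (u.1.tail, u.2),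
    fun u => if u.1.headD false then u.2.headD false else
      d (u.1.tail, u.2.take (p.eval u.1.tail.length)), (Polynomial.X + 2) ^ a, ?_, ?_,
      fun z => ?_⟩
  · exact isPolyTimeL_of_pf (PF.ite (PF.headD PF.fst (PF.const false)) (PF.tail PF.fst)
      (hq'.comp (PF.pair (PF.tail PF.fst) PF.snd)))
  · exact isPolyTime_of_pf2 (PF.ite (PF.headD PF.fst (PF.const false))
      (PF.headD PF.snd (PF.const false)) (hd'.comp (PF.pair (PF.tail PF.fst)
        (PF.take (pf_eval (PF.length (PF.tail PF.fst)) p) PF.snd))))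
  · rw [oracleAnswers_eq]
    unfold join
    dsimp only
    by_cases h0 : z.headD false = true
    swap
    · simp only [h0, Bool.false_eq_true, if_false]
      rw [answers_take _ _ (hb _ _ (by rw [List.length_tail]; omega)), hA, oracleAnswers_eq]
    · simp only [h0, if_true]
      obtain ⟨n, hn⟩ : ∃ n, ((Polynomial.X + 2) ^ a : Polynomial ℕ).eval z.length = n + 1 := by
        have e : (((Polynomial.X + 2) ^ a) : Polynomial ℕ).eval z.length = (z.length + 2) ^ a := by
          simp
        rw [e]
        exact ⟨(z.length + 2) ^ a - 1, by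
          have := Nat.one_le_pow a (z.length + 2) (by omega)
          omega⟩
      rw [hn]
      have h1 := answers_take (fun _ => z.tail) B (m := 1) (n := n + 1) (by omega)
      have h2 : answers (fun _ => z.tail) B 1 = [B z.tail] := rfl
      rcases h3 : answers (fun _ => z.tail) B (n + 1) with _ | ⟨b, l⟩
      · rw [h3, h2] at h1; simp at h1
      · rw [h3, h2] at h1
        simp at h1
        rw [List.headD_cons, h1]

/-- two of the languages are Turing incomparable -/
theorem incomparable {K A B : DecisionProblem} (hj : ManyOneReducible K (join A B))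
    (hB : ¬ TuringReducible K B) : ¬ TuringReducible A B := fun h =>
  hB (turing_comp hj (turing_join h))

end Pool.Agent.T9h21.UB
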