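import Pool.Agent.T9h21.UB.Idx

/-!
# Stages
-/

set_option autoImplicit false

namespace Pool.Agent.T9h21.UB

open Turing Computability N68a2faeb N793a5b8e
open Pool.Agent.H583R2
open Pool.Agent.T9h49.SC hiding found act stp st upd badN RK RN KK NN Good

/-- a family of reductions, evaluated with a budget and a partial oracle; the number `m` is the
level, and the reductions of level `m` lead from `NP ∩ coNP` to the class `cls m` -/
structure Fn where
  /-- the class of the level `m` -/
  cls : ℕ → Set DecisionProblem
  /-- the language that the reduction `r` of level `m` reduces to `B` -/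
  Ω : ℕ → ℕ → DecisionProblem → DecisionProblem
  /-- evaluation with a partial oracle and a budget -/
  ΩB : ℕ → ℕ → (List Bool → Option Bool) → List Bool → ℕ → Option Bool
  sound : ∀ (m r : ℕ) (o : List Bool → Option Bool) (B : DecisionProblem) (x : List Bool) (N : ℕ)
    (b : Bool), (∀ z c, o z = some c → B z = c) → ΩB m r o x N = some b → Ω m r B x = b
  total : ∀ (m r : ℕ) (B : DecisionProblem) (x : List Bool), ∃ N₀ : ℕ,
    ∀ (o : List Bool → Option Bool) (N : ℕ), N₀ ≤ N →
      (∀ z : List Bool, z.length ≤ N₀ → o z = some (B z)) → ΩB m r o x N = some (Ω m r B x)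
  closed : ∀ (m r : ℕ) (B : DecisionProblem), B ∈ NP ∩ coNP → Ω m r B ∈ cls m
  pf : ∀ {α : Type} [TEnc α] {o : α → List Bool → Option Bool} {m r N : α → ℕ}
    {x : α → List Bool}, PF (fun p : α × List Bool => o p.1 p.2) → PF m → PF r → PF x → PF N →
      PF (fun a => ΩB (m a) (r a) (o a) (x a) (N a))

/-! ### the numbering of the stages -/

/-- the language which the stage `n` treats -/
def par (n : ℕ) : ℕ := (Nat.unpair n).1

/-- the requirement which the stage `n` treats -/
def hlf (n : ℕ) : ℕ := (Nat.unpair n).2

theorem pf_hlf {α : Type} [TEnc α] {n : α → ℕ} (hn : PF n) : PF (fun a => hlf (n a)) :=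
  PF.snd' (pf_unpair hn)

theorem pf_par {α : Type} [TEnc α] {n : α → ℕ} (hn : PF n) : PF (fun a => par (n a)) :=
  PF.fst' (pf_unpair hn)

/-! ### the languages -/

/-- the number of stages that have ended at the length `m`; `l` is the list of their ends -/
def lv (l : List ℕ) (m : ℕ) : ℕ := (l.filter (fun e => decide (e ≤ m))).length

section
variable {K : DecisionProblem} (E : Ev fun _ => K)

/-- the instance `y`, at length `n`, is valid -/
def cnd (l : List ℕ) (n : ℕ) (y : List Bool) : Bool :=
  (decide (iE y < lv l n) && !found E (iE y) n) &&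
    decide (tmC (ke (iE y)) (iX y) (n + 1) ≤ n)

/-- the reduction of `K_s` to `K` -/
def Rd (s : ℕ) (l : List ℕ) (z : List Bool) : Option (List Bool) :=
  if z.headD false then
    (if decide (par (lv l z.length) = s) then none else some z.tail)
  else if cnd E l z.length z.tail then some (phiC (iE z.tail) (iX z.tail) z.length) else none

theorem Rd_congr {s : ℕ} {l l' : List ℕ} {z : List Bool} (h : lv l z.length = lv l' z.length) :
    Rd E s l z = Rd E s l' z := by
  unfold Rd cnd
  rw [h]

/-- the oracle with budget `n` -/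
def orc (s : ℕ) (l : List ℕ) (n : ℕ) (z : List Bool) : Option Bool :=
  if decide (z.length ≤ n) then
    (match Rd E s l z with
    | none => some false
    | some y => E.ev 0 y n)
  else none

variable {A : ℕ → DecisionProblem} (EA : Ev A) (F : Fn)

/-- the comparison of two optional bits -/
def dif (a b : Option Bool) : Bool :=
  a.isSome && b.isSome && !(a.getD false == b.getD false)

theorem dif_iff {a b : Option Bool} : dif a b = true ↔ ∃ c d, a = some c ∧ b = some d ∧ c ≠ d := by
  rcases a with _ | a <;> rcases b with _ | b <;> simp [dif]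

/-- the stage number `l.length` may end at `n` -/
def chk (l : List ℕ) (n : ℕ) : Bool :=
  (List.range n).any (fun j => dif (EA.ev (Nat.unpair (hlf l.length)).1 (str j) n)
    (F.ΩB (Nat.unpair (hlf l.length)).1 (Nat.unpair (hlf l.length)).2 (orc E (par l.length) l n) (str j) n))

/-- the ends of the stages up to `n` -/
def S : ℕ → List ℕ
  | 0 => []
  | n + 1 => if chk E EA F (S n) n then S n ++ [n + 1] else S n

/-- the language `K_s` -/
def KS (s : ℕ) : DecisionProblem := fun z =>
  match Rd E s (S E EA F z.length) z with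
  | none => false
  | some y => K y

theorem S_mem (n : ℕ) : ∀ e ∈ S E EA F n, e ≤ n := by
  induction n with
  | zero => intro e he; simp [S] at he
  | succ n ih =>
    intro e he
    unfold S at he
    split_ifs at he
    · rcases List.mem_append.1 he with h | h
      · have := ih e h; omega
      · rw [List.mem_singleton] at h; omega
    · have := ih e he; omega

theorem S_len (n : ℕ) : (S E EA F n).length ≤ n := by
  induction n with
  | zero => simp [S]
  | succ n ih =>
    unfold S
    split_ifs
    · rw [List.length_append, List.length_singleton]; omega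
    · omega

theorem lv_self (n : ℕ) : lv (S E EA F n) n = (S E EA F n).length := by
  unfold lv
  rw [List.filter_eq_self.2]
  intro e he
  rw [decide_eq_true_eq]
  exact S_mem E EA F n e he

theorem lv_S {m n : ℕ} (h : m ≤ n) : lv (S E EA F n) m = (S E EA F m).length := by
  induction n, h using Nat.le_induction with
  | base => exact lv_self E EA F m
  | succ n hmn ih =>
    rw [← ih]
    conv_lhs => unfold S
    split_ifs
    · unfold lv
      rw [List.filter_append, List.filter_singleton,
        decide_eq_false (by omega : ¬ n + 1 ≤ m)]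
      simp
    · rfl

theorem Rd_S {s n : ℕ} {z : List Bool} (h : z.length ≤ n) :
    Rd E s (S E EA F n) z = Rd E s (S E EA F z.length) z :=
  Rd_congr E (by rw [lv_S E EA F h, lv_self])

theorem orc_sound {s n : ℕ} {z : List Bool} {c : Bool}
    (h : orc E s (S E EA F n) n z = some c) : KS E EA F s z = c := by
  unfold orc at h
  split_ifs at h with h1
  rw [decide_eq_true_eq] at h1
  rw [Rd_S E EA F h1] at h
  unfold KS
  rcases h2 : Rd E s (S E EA F z.length) z with _ | y
  · rw [h2] at h
    simpa using h
  · rw [h2] at h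
    exact E.sound _ _ _ _ h

theorem orc_total1 (s : ℕ) (z : List Bool) : ∃ N₀, ∀ N, N₀ ≤ N →
    orc E s (S E EA F N) N z = some (KS E EA F s z) := by
  rcases h2 : Rd E s (S E EA F z.length) z with _ | y
  · refine ⟨z.length, fun N hN => ?_⟩
    unfold orc KS
    rw [if_pos (by simpa using hN), Rd_S E EA F hN, h2]
  · obtain ⟨N₁, hN₁⟩ := E.total 0 y
    refine ⟨max z.length N₁, fun N hN => ?_⟩
    have h3 := (le_max_left z.length N₁).trans hN
    unfold orc KS
    rw [if_pos (by simpa using h3), Rd_S E EA F h3, h2]
    exact hN₁ N ((le_max_right _ _).trans hN)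

theorem orc_total (s m : ℕ) : ∃ N₀, ∀ N, N₀ ≤ N → ∀ z : List Bool, z.length ≤ m →
    orc E s (S E EA F N) N z = some (KS E EA F s z) := by
  have key : ∀ j : ℕ, ∃ N₀, ∀ N, N₀ ≤ N → ∀ z : List Bool, idx z < j →
      orc E s (S E EA F N) N z = some (KS E EA F s z) := by
    intro j
    induction j with
    | zero => exact ⟨0, fun N _ z hz => absurd hz (by omega)⟩
    | succ j ih =>
      obtain ⟨N₁, h1⟩ := ih
      obtain ⟨N₂, h2⟩ := orc_total1 E EA F s (str j)
      refine ⟨max N₁ N₂, fun N hN z hz => ?_⟩
      rcases Nat.lt_succ_iff_lt_or_eq.1 hz with h | h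
      · exact h1 N ((le_max_left _ _).trans hN) z h
      · have : z = str j := by rw [← h, str_idx]
        rw [this]
        exact h2 N ((le_max_right _ _).trans hN)
  obtain ⟨N₀, h⟩ := key (2 ^ (m + 1))
  refine ⟨N₀, fun N hN z hz => h N hN z ?_⟩
  have h1 := idx_lt z
  have h2 : 2 ^ (z.length + 1) ≤ 2 ^ (m + 1) := Nat.pow_le_pow_right (by norm_num) (by omega)
  omega

theorem chk_sound {n : ℕ} (h : chk E EA F (S E EA F n) n = true) :
    A (Nat.unpair (hlf (S E EA F n).length)).1 ≠
      F.Ω (Nat.unpair (hlf (S E EA F n).length)).1 (Nat.unpair (hlf (S E EA F n).length)).2 (KS E EA F (par (S E EA F n).length)) := by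
  unfold chk at h
  rw [List.any_eq_true] at h
  obtain ⟨j, _, hj⟩ := h
  rw [dif_iff] at hj
  obtain ⟨c, d, h1, h2, h3⟩ := hj
  intro hcon
  apply h3
  rw [← EA.sound _ _ _ _ h1, hcon]
  exact F.sound _ _ _ _ _ _ _ (fun z c hz => orc_sound E EA F hz) h2

theorem chk_total {n₀ : ℕ} (h : ∀ n, n₀ ≤ n → chk E EA F (S E EA F n) n = false) :
    (∀ n, n₀ ≤ n → S E EA F n = S E EA F n₀) ∧ A (Nat.unpair (hlf (S E EA F n₀).length)).1 =
      F.Ω (Nat.unpair (hlf (S E EA F n₀).length)).1 (Nat.unpair (hlf (S E EA F n₀).length)).2
        (KS E EA F (par (S E EA F n₀).length)) := by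
  have hS : ∀ n, n₀ ≤ n → S E EA F n = S E EA F n₀ := by
    intro n hn
    induction n, hn using Nat.le_induction with
    | base => rfl
    | succ n hn ih =>
      have e : S E EA F (n + 1) = if chk E EA F (S E EA F n) n then S E EA F n ++ [n + 1]
          else S E EA F n := rfl
      rw [e, if_neg (by rw [h n hn]; simp)]
      exact ih
  refine ⟨hS, funext fun x => ?_⟩
  obtain ⟨N₁, h1⟩ := EA.total (Nat.unpair (hlf (S E EA F n₀).length)).1 x
  obtain ⟨N₂, h2⟩ := F.total (Nat.unpair (hlf (S E EA F n₀).length)).1 (Nat.unpair (hlf (S E EA F n₀).length)).2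
    (KS E EA F (par (S E EA F n₀).length)) x
  obtain ⟨N₃, h3⟩ := orc_total E EA F (par (S E EA F n₀).length) N₂
  set N := max n₀ (max N₁ (max N₂ (max N₃ (idx x + 1)))) with hN
  have e1 : n₀ ≤ N := le_max_left _ _
  have e2 : N₁ ≤ N := (le_max_left _ _).trans (le_max_right _ _)
  have e3 : N₂ ≤ N := (le_max_left _ _).trans ((le_max_right _ _).trans (le_max_right _ _))
  have e4 : N₃ ≤ N := (le_max_left _ _).trans
    ((le_max_right _ _).trans ((le_max_right _ _).trans (le_max_right _ _)))
  have e5 : idx x + 1 ≤ N := (le_max_right _ _).trans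
    ((le_max_right _ _).trans ((le_max_right _ _).trans (le_max_right _ _)))
  by_contra hne
  have h4 := h N e1
  rw [← Bool.not_eq_true] at h4
  apply h4
  unfold chk
  rw [List.any_eq_true]
  refine ⟨idx x, List.mem_range.2 (by omega), ?_⟩
  rw [str_idx, dif_iff, hS N e1]
  refine ⟨_, _, h1 N e2, h2 _ N e3 fun z hz => ?_, hne⟩
  have h5 := h3 N e4 z hz
  rw [hS N e1] at h5
  exact h5

end

end Pool.Agent.T9h21.UB
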