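import Pool.Agent.T9h21.UB.Stage

/-!
# Polynomial-time Turing reductions
-/

set_option autoImplicit false

namespace Pool.Agent.T9h21.UB

open Turing Computability N68a2faeb N793a5b8e
open Pool.Agent.H583R2
open Pool.Agent.T9h49.SC hiding found act stp st upd badN RK RN KK NN Good

/-- the first `n` answers of the oracle `B` to the queries asked by `q` -/
def answers (q : List Bool → List Bool) (B : DecisionProblem) : ℕ → List Bool
  | 0 => []
  | n + 1 => answers q B n ++ [B (q (answers q B n))]

theorem answers_length (q : List Bool → List Bool) (B : DecisionProblem) (n : ℕ) :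
    (answers q B n).length = n := by
  induction n with
  | zero => rfl
  | succ n ih => rw [answers, List.length_append, ih, List.length_singleton]

theorem answers_take (q : List Bool → List Bool) (B : DecisionProblem) {m n : ℕ} (h : m ≤ n) :
    (answers q B n).take m = answers q B m := by
  induction n, h using Nat.le_induction with
  | base => rw [List.take_of_length_le (by rw [answers_length])]
  | succ n hn ih =>
    rw [answers, List.take_append_of_le_length (by rw [answers_length]; exact hn), ih]

theorem answers_congr {q q' : List Bool → List Bool} (B : DecisionProblem) (n : ℕ)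
    (h : ∀ a : List Bool, a.length < n → q a = q' a) : answers q B n = answers q' B n := by
  induction n with
  | zero => rfl
  | succ n ih =>
    rw [answers, answers, ih fun a ha => h a (by omega), h _ (by rw [answers_length]; omega)]

/-- one more answer of a partial oracle -/
def ask (q : List Bool → List Bool) (o : List Bool → Option Bool) (s : Option (List Bool)) :
    Option (List Bool) :=
  s.bind (fun a => (o (q a)).bind (fun b => some (a ++ [b])))

theorem ask_sound {q : List Bool → List Bool} {o : List Bool → Option Bool}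
    {B : DecisionProblem} (ho : ∀ z c, o z = some c → B z = c) (n : ℕ) :
    ∀ a, (ask q o)^[n] (some []) = some a → a = answers q B n := by
  induction n with
  | zero => intro a h; exact (Option.some.inj h).symm
  | succ n ih =>
    intro a h
    rw [Function.iterate_succ_apply'] at h
    rcases h1 : (ask q o)^[n] (some []) with _ | a'
    · rw [h1] at h; simp [ask] at h
    · rw [h1] at h
      have h2 := ih a' h1
      rcases h3 : o (q a') with _ | b
      · simp [ask, h3] at h
      · simp only [ask, Option.bind_some, h3, Option.some.injEq] at h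
        rw [← h, answers, ← h2, ho _ _ h3]

theorem ask_total {q : List Bool → List Bool} {o : List Bool → Option Bool}
    {B : DecisionProblem} (n : ℕ)
    (ho : ∀ j, j < n → o (q (answers q B j)) = some (B (q (answers q B j)))) :
    (ask q o)^[n] (some []) = some (answers q B n) := by
  induction n with
  | zero => rfl
  | succ n ih =>
    rw [Function.iterate_succ_apply', ih fun j hj => ho j (by omega)]
    simp only [ask, Option.bind_some, ho n (by omega)]
    rfl

section
variable {α : Type} [TEnc α]

theorem sz_snoc (a : List Bool) (b : Bool) : sz (a ++ [b]) ≤ sz a + 4 := by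
  have h1 := sz_append a [b]
  have h2 : sz [b] = 1 + sz b + 1 := sz_cons b []
  have h3 := sz_bool b
  omega

theorem sz_ask (q : List Bool → List Bool) (o : List Bool → Option Bool)
    (s : Option (List Bool)) : sz (ask q o s) ≤ max (sz s + 4) 1 := by
  rcases s with _ | a
  · exact le_max_right _ _
  · rcases h : o (q a) with _ | b
    · simp only [ask, Option.bind_some, h, Option.bind_none]
      exact le_max_right _ _
    · simp only [ask, Option.bind_some, h]
      rw [sz_some, sz_some]
      have := sz_snoc a b
      exact le_trans (by omega) (le_max_left _ _)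

theorem pf_run {q : α → List Bool → List Bool} {o : α → List Bool → Option Bool} {n : α → ℕ}
    (hq : PF (fun p : α × List Bool => q p.1 p.2)) (ho : PF (fun p : α × List Bool => o p.1 p.2))
    (hn : PF n) : PF (fun a => (ask (q a) (o a))^[n a] (some [])) := by
  refine PF.iterateAdd (n := n) (s := fun _ => some []) (f := fun a s => ask (q a) (o a) s) hn
    (PF.const _) ?_ (inc := fun _ => 4) (bnd := fun _ => 1) (PB.const 4) (PB.const 1) ?_
  · have h1 : PF (fun p : (α × Option (List Bool)) × List Bool => o p.1.1 (q p.1.1 p.2)) :=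
      ho.comp (PF.pair (PF.fst' PF.fst) (hq.comp (PF.pair (PF.fst' PF.fst) PF.snd)))
    have h2 : PF (fun p : (α × Option (List Bool)) × List Bool =>
        (o p.1.1 (q p.1.1 p.2)).bind (fun b => some (p.2 ++ [b]))) :=
      pf_bind h1 (f := fun p b => some (p.2 ++ [b]))
        (PF.mkSome (PF.append (PF.snd' PF.fst) (PF.cons PF.snd (PF.const []))))
    exact pf_bind (o := fun p : α × Option (List Bool) => p.2) PF.snd
      (f := fun p a => (o p.1 (q p.1 a)).bind (fun b => some (a ++ [b]))) h2
  · intro a st
    exact sz_ask _ _ _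

end

/-! ### the family -/

/-- codes for the queries and the decision, exponents for their number and for the clock -/
abbrev Tx := Code × Code × ℕ × ℕ

/-- the reduction number `r` -/
def tx (r : ℕ) : Tx := decP decCode (decP decCode (decP decN decN)) (parse (str r))

theorem exists_tx (i : Tx) : ∃ r, tx r = i := by
  obtain ⟨e, _, he⟩ := exists_index (enc i) 0
  refine ⟨e, ?_⟩
  unfold tx
  rw [he]
  exact decP_enc decCode_enc (decP_enc decCode_enc (decP_enc decN_enc decN_enc)) i

section
variable {α : Type} [TEnc α]

theorem pf_tx {e : α → ℕ} (he : PF e) : PF (fun a => tx (e a)) := by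
  have h : PF (fun t : Tr => decP decCode (decP decCode (decP decN decN)) t) :=
    PF.decP (d := decCode) (d' := decP decCode (decP decN decN)) (PF.decCode PF.id)
      (PF.decP (d := decCode) (d' := decP decN decN) (PF.decCode PF.id)
        (PF.decP (d := decN) (d' := decN) (PF.decN PF.id) (PF.decN PF.id) PF.id) PF.id) PF.id
  exact h.comp (PF.parse (PF.str he))

end

/-- the query, clock `T` -/
def qry (c : Code) (T : ℕ) (x a : List Bool) : List Bool :=
  (uL ((U c (eP x a) T).getD [])).take T

/-- the decision, clock `T` -/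
def dcs (c : Code) (T : ℕ) (x a : List Bool) : Bool := ((U c (eP x a) T).getD []).headD false

/-- the number of queries -/
def tq (r : ℕ) (x : List Bool) : ℕ := tm (tx r).2.2.1 x

/-- the clock -/
def tc (r : ℕ) (x : List Bool) : ℕ := tm (tx r).2.2.2 x

/-- the language that the Turing reduction `r` reduces to `B` -/
def ΩT (r : ℕ) (B : DecisionProblem) : DecisionProblem := fun x =>
  dcs (tx r).2.1 (tc r x) x (answers (qry (tx r).1 (tc r x) x) B (tq r x))

/-- the capped number of queries -/
def tqC (r : ℕ) (x : List Bool) (N : ℕ) : ℕ := tmC (tx r).2.2.1 x N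

/-- the capped clock -/
def tcC (r : ℕ) (x : List Bool) (N : ℕ) : ℕ := tmC (tx r).2.2.2 x N

/-- see above, with a budget -/
def ΩTB (r : ℕ) (o : List Bool → Option Bool) (x : List Bool) (N : ℕ) : Option Bool :=
  if decide (tqC r x (N + 1) ≤ N) && decide (tcC r x (N + 1) ≤ N) then
    ((ask (qry (tx r).1 (tcC r x N) x) o)^[tqC r x N] (some [])).bind
      (fun a => some (dcs (tx r).2.1 (tcC r x N) x a))
  else none

theorem tmC_succ_le {k N : ℕ} {x : List Bool} : tmC k x (N + 1) ≤ N ↔ tm k x ≤ N := by
  unfold tmC
  omega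

theorem tmC_eq {k N : ℕ} {x : List Bool} (h : tm k x ≤ N) : tmC k x N = tm k x := min_eq_left h

theorem ΩTB_sound (r : ℕ) (o : List Bool → Option Bool) (B : DecisionProblem) (x : List Bool)
    (N : ℕ) (b : Bool) (ho : ∀ z c, o z = some c → B z = c) (h : ΩTB r o x N = some b) :
    ΩT r B x = b := by
  unfold ΩTB at h
  split_ifs at h with h1
  rw [Bool.and_eq_true, decide_eq_true_eq, decide_eq_true_eq] at h1
  unfold tqC tcC at h1
  rw [tmC_succ_le, tmC_succ_le] at h1
  unfold tqC tcC at h
  rw [tmC_eq h1.1, tmC_eq h1.2] at h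
  rcases h2 : (ask (qry (tx r).1 (tm (tx r).2.2.2 x) x) o)^[tm (tx r).2.2.1 x] (some []) with _ | a
  · rw [h2] at h; simp at h
  · rw [h2] at h
    have h3 := ask_sound ho _ a h2
    unfold ΩT tc tq
    rw [← h3]
    exact Option.some.inj h

theorem ΩTB_total (r : ℕ) (B : DecisionProblem) (x : List Bool) : ∃ N₀ : ℕ,
    ∀ (o : List Bool → Option Bool) (N : ℕ), N₀ ≤ N →
      (∀ z : List Bool, z.length ≤ N₀ → o z = some (B z)) → ΩTB r o x N = some (ΩT r B x) := by
  refine ⟨tm (tx r).2.2.1 x + tm (tx r).2.2.2 x, fun o N hN ho => ?_⟩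
  have h1 : tm (tx r).2.2.1 x ≤ N := (Nat.le_add_right _ _).trans hN
  have h2 : tm (tx r).2.2.2 x ≤ N := (Nat.le_add_left _ _).trans hN
  unfold ΩTB tqC tcC
  rw [if_pos (by
    rw [Bool.and_eq_true, decide_eq_true_eq, decide_eq_true_eq, tmC_succ_le, tmC_succ_le]
    exact ⟨h1, h2⟩), tmC_eq h1, tmC_eq h2, ask_total (B := B)]
  · rfl
  · intro j _
    apply ho
    unfold qry
    rw [List.length_take]
    exact (min_le_left _ _).trans (Nat.le_add_left _ _)

section
variable {α : Type} [TEnc α]

theorem pf_qry {c : α → Code} {T : α → ℕ} {x a : α → List Bool} (hc : PF c) (hT : PF T)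
    (hx : PF x) (ha : PF a) : PF (fun p => qry (c p) (T p) (x p) (a p)) :=
  PF.take hT (pf_uL (PF.getD (pf_U hc (pf_eP hx ha) hT) (PF.const [])))

theorem pf_dcs {c : α → Code} {T : α → ℕ} {x a : α → List Bool} (hc : PF c) (hT : PF T)
    (hx : PF x) (ha : PF a) : PF (fun p => dcs (c p) (T p) (x p) (a p)) :=
  PF.headD (PF.getD (pf_U hc (pf_eP hx ha) hT) (PF.const [])) (PF.const false)

theorem pf_ΩTB {o : α → List Bool → Option Bool} {r N : α → ℕ}
    {x : α → List Bool} (ho : PF (fun p : α × List Bool => o p.1 p.2)) (hr : PF r) (hx : PF x)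
    (hN : PF N) : PF (fun a => ΩTB (r a) (o a) (x a) (N a)) := by
  have hq0 : PF (fun a => (tx (r a)).2.2.1) := PF.fst' (PF.snd' (PF.snd' (pf_tx hr)))
  have hk0 : PF (fun a => (tx (r a)).2.2.2) := PF.snd' (PF.snd' (PF.snd' (pf_tx hr)))
  unfold ΩTB tqC tcC
  refine PF.ite (PF.and (PF.le (pf_tmC hq0 hx (PF.succ hN)) hN)
    (PF.le (pf_tmC hk0 hx (PF.succ hN)) hN)) ?_ (PF.const none)
  have hk1 : PF (fun p : α × List Bool => tmC (tx (r p.1)).2.2.2 (x p.1) (N p.1)) :=
    pf_tmC (hk0.comp PF.fst) (hx.comp PF.fst) (hN.comp PF.fst)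
  exact pf_bind (pf_run (q := fun a => qry (tx (r a)).1 (tmC (tx (r a)).2.2.2 (x a) (N a)) (x a))
    (pf_qry (PF.fst' (pf_tx (hr.comp PF.fst))) hk1 (hx.comp PF.fst) PF.snd) ho
    (pf_tmC hq0 hx hN)) (PF.mkSome (pf_dcs (PF.fst' (PF.snd' (pf_tx (hr.comp PF.fst)))) hk1
      (hx.comp PF.fst) PF.snd))

end

end Pool.Agent.T9h21.UB
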